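import Pool.Agent.H256Z.OS.Emb

/-! The chain of cosets of convex subgroups of an ordered group. -/

set_option autoImplicit false
set_option linter.unusedSectionVars false

namespace Pool.Agent.H256Z.OS

open Set

/-- Convex subgroups. -/
structure CS (H : Type) [Group H] [LinearOrder H] where
  E : Subgroup H
  conv : ∀ a b, 1 ≤ a → a ≤ b → b ∈ E → a ∈ E

variable {H : Type} [Group H] [LinearOrder H] [MulLeftMono H] [MulRightMono H]

theorem conj_le_conj {a b : H} (g : H) (h : a ≤ b) : g⁻¹ * a * g ≤ g⁻¹ * b * g :=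
  mul_le_mul_left (mul_le_mul_right h _) _

theorem conj_lt_conj {a b : H} (g : H) (h : a < b) : g⁻¹ * a * g < g⁻¹ * b * g :=
  lt_of_le_of_ne (conj_le_conj g h.le) (fun e => h.ne (by simpa using e))

theorem one_le_conj {a : H} (g : H) (h : 1 ≤ a) : 1 ≤ g⁻¹ * a * g := by
  simpa using conj_le_conj g h

theorem CS.mem_of_neg (E : CS H) {u v : H} (hv : v ∈ E.E) (h1 : v ≤ u) (h2 : u ≤ 1) :
    u ∈ E.E := by
  have := E.conv u⁻¹ v⁻¹ (one_le_inv'.2 h2) (inv_le_inv_iff.2 h1) (inv_mem hv)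
  simpa using this

theorem CS.total (E F : CS H) : E.E ≤ F.E ∨ F.E ≤ E.E := by
  by_contra h
  push Not at h
  obtain ⟨a, ha, ha'⟩ := SetLike.not_le_iff_exists.1 h.1
  obtain ⟨b, hb, hb'⟩ := SetLike.not_le_iff_exists.1 h.2
  have key : ∀ (G : CS H) (x : H), x ∈ G.E ↔ max x x⁻¹ ∈ G.E := by
    intro G x
    rcases max_choice x x⁻¹ with e | e <;> rw [e]
    simp
  have pos : ∀ x : H, 1 ≤ max x x⁻¹ := by
    intro x
    rcases le_total 1 x with e | e
    · exact le_max_of_le_left e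
    · exact le_max_of_le_right (one_le_inv'.2 e)
  rcases le_total (max a a⁻¹) (max b b⁻¹) with e | e
  · exact ha' ((key F a).2 (F.conv _ _ (pos a) e ((key F b).1 hb)))
  · exact hb' ((key E b).2 (E.conv _ _ (pos b) e ((key E a).1 ha)))

/-- Nonnegative modulo the convex subgroup. -/
def CS.Q (E : CS H) (u : H) : Prop := 1 ≤ u ∨ u ∈ E.E

theorem CS.Q_mul (E : CS H) {u v : H} (hu : E.Q u) (hv : E.Q v) : E.Q (u * v) := by
  rcases le_total 1 (u * v) with h | h
  · exact Or.inl h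
  right
  rcases hu with hu | hu <;> rcases hv with hv | hv
  · rw [le_antisymm h (one_le_mul hu hv)]
    exact one_mem _
  · exact E.mem_of_neg hv (le_mul_of_one_le_left' hu) h
  · exact E.mem_of_neg hu (le_mul_of_one_le_right' hv) h
  · exact mul_mem hu hv

/-- Conjugate of a convex subgroup. -/
def CS.cj (g : H) (E : CS H) : CS H where
  E := { carrier := {x | g⁻¹ * x * g ∈ E.E}
         mul_mem' := by
           intro a b ha hb
           have := E.E.mul_mem ha hb
           show g⁻¹ * (a * b) * g ∈ E.E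
           rwa [show g⁻¹ * (a * b) * g = g⁻¹ * a * g * (g⁻¹ * b * g) by group]
         one_mem' := by
           show g⁻¹ * 1 * g ∈ E.E
           simp
         inv_mem' := by
           intro a ha
           have := E.E.inv_mem ha
           show g⁻¹ * a⁻¹ * g ∈ E.E
           rwa [show g⁻¹ * a⁻¹ * g = (g⁻¹ * a * g)⁻¹ by group] }
  conv := fun a b h1 h2 hb => E.conv _ _ (one_le_conj g h1) (conj_le_conj g h2) hb

theorem CS.mem_cj {g x : H} {E : CS H} : x ∈ (E.cj g).E ↔ g⁻¹ * x * g ∈ E.E := Iff.rfl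

/-- Representatives of cosets. -/
structure Pt (H : Type) [Group H] [LinearOrder H] where
  E : CS H
  h : H

instance : Preorder (Pt H) where
  le a b := b.E.E ≤ a.E.E ∧ (a.E.E ≤ b.E.E → a.E.Q (b.h * a.h⁻¹))
  le_refl a := ⟨le_rfl, fun _ => Or.inl (by simp)⟩
  le_trans a b c hab hbc := ⟨hbc.1.trans hab.1, fun h => by
    have h1 := hab.2 (h.trans hbc.1)
    have h2 : a.E.Q (c.h * b.h⁻¹) := by
      rcases hbc.2 (hab.1.trans h) with e | e
      · exact Or.inl e
      · exact Or.inr (hab.1 e)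
    have := a.E.Q_mul h2 h1
    rwa [show c.h * b.h⁻¹ * (b.h * a.h⁻¹) = c.h * a.h⁻¹ by group] at this⟩

theorem Pt.le_def {a b : Pt H} :
    a ≤ b ↔ b.E.E ≤ a.E.E ∧ (a.E.E ≤ b.E.E → a.E.Q (b.h * a.h⁻¹)) := Iff.rfl

instance : @Std.Total (Pt H) (· ≤ ·) := ⟨fun a b => by
  by_cases h1 : a.E.E ≤ b.E.E
  · by_cases h2 : b.E.E ≤ a.E.E
    · rcases le_total a.h b.h with e | e
      · exact Or.inl ⟨h2, fun _ => Or.inl (by simpa using e)⟩
      · exact Or.inr ⟨h1, fun _ => Or.inl (by simpa using e)⟩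
    · exact Or.inr ⟨h1, fun h => absurd h h2⟩
  · exact Or.inl ⟨(CS.total a.E b.E).resolve_left h1, fun h => absurd h h1⟩⟩

/-- The action on representatives. -/
def Pt.sm (g : H) (a : Pt H) : Pt H := ⟨a.E.cj g, g * a.h⟩

theorem Pt.sm_mono (g : H) : Monotone (Pt.sm g) := by
  intro a b hab
  refine ⟨fun x hx => hab.1 hx, fun h => ?_⟩
  have h1 : a.E.E ≤ b.E.E := by
    intro x hx
    have : g * x * g⁻¹ ∈ (b.E.cj g).E := h (by
      show g⁻¹ * (g * x * g⁻¹) * g ∈ a.E.E
      rwa [show g⁻¹ * (g * x * g⁻¹) * g = x by group])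
    rw [CS.mem_cj] at this
    rwa [show g⁻¹ * (g * x * g⁻¹) * g = x by group] at this
  rcases hab.2 h1 with e | e
  · left
    have := one_le_conj g⁻¹ e
    show 1 ≤ g * b.h * (g * a.h)⁻¹
    rwa [show g * b.h * (g * a.h)⁻¹ = g⁻¹⁻¹ * (b.h * a.h⁻¹) * g⁻¹ by group]
  · right
    show g⁻¹ * (g * b.h * (g * a.h)⁻¹) * g ∈ a.E.E
    rwa [show g⁻¹ * (g * b.h * (g * a.h)⁻¹) * g = b.h * a.h⁻¹ by group]

theorem Pt.le_of_eq {a b : Pt H} (h1 : ∀ x, x ∈ a.E.E ↔ x ∈ b.E.E) (h2 : a.h = b.h) : a ≤ b :=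
  ⟨fun x hx => (h1 x).2 hx, fun _ => Or.inl (by simp [h2])⟩

/-- The chain of cosets. -/
def XX (H : Type) [Group H] [LinearOrder H] [MulLeftMono H] [MulRightMono H] : Type :=
  Antisymmetrization (Pt H) (· ≤ ·)

open Classical in
noncomputable instance : LinearOrder (XX H) :=
  inferInstanceAs (LinearOrder (Antisymmetrization (Pt H) (· ≤ ·)))

/-- The class of a representative. -/
def xx (a : Pt H) : XX H := toAntisymmetrization (· ≤ ·) a

theorem xx_le {a b : Pt H} : xx a ≤ xx b ↔ a ≤ b :=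
  toAntisymmetrization_le_toAntisymmetrization_iff

theorem xx_surj (y : XX H) : ∃ a, y = xx a := by
  induction y using Antisymmetrization.ind with
  | _ a => exact ⟨a, rfl⟩

/-- The action on the chain, as a function. -/
def r0 (g : H) : XX H →o XX H := OrderHom.antisymmetrization ⟨Pt.sm g, Pt.sm_mono g⟩

theorem r0_xx (g : H) (a : Pt H) : r0 g (xx a) = xx (Pt.sm g a) := rfl

theorem r0_r0 (g k : H) (y : XX H) : r0 g (r0 k y) = r0 (g * k) y := by
  obtain ⟨a, rfl⟩ := xx_surj y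
  rw [r0_xx, r0_xx, r0_xx]
  have h1 : ∀ x, x ∈ (Pt.sm g (Pt.sm k a)).E.E ↔ x ∈ (Pt.sm (g * k) a).E.E := by
    intro x
    show k⁻¹ * (g⁻¹ * x * g) * k ∈ a.E.E ↔ (g * k)⁻¹ * x * (g * k) ∈ a.E.E
    rw [show k⁻¹ * (g⁻¹ * x * g) * k = (g * k)⁻¹ * x * (g * k) by group]
  have h2 : (Pt.sm g (Pt.sm k a)).h = (Pt.sm (g * k) a).h := (mul_assoc _ _ _).symm
  exact le_antisymm (xx_le.2 (Pt.le_of_eq h1 h2))
    (xx_le.2 (Pt.le_of_eq (fun x => (h1 x).symm) h2.symm))

theorem r0_fix {g : H} {a : Pt H} (hg : g ∈ a.E.E) : r0 g (xx a) = xx a := by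
  rw [r0_xx]
  have h1 : ∀ x, x ∈ (a.E.cj g).E ↔ x ∈ a.E.E := by
    intro x
    rw [CS.mem_cj, Subgroup.mul_mem_cancel_right _ hg,
      Subgroup.mul_mem_cancel_left _ (inv_mem hg)]
  refine le_antisymm (xx_le.2 ⟨fun x hx => (h1 x).2 hx, fun _ => Or.inr ((h1 _).2 ?_)⟩)
    (xx_le.2 ⟨fun x hx => (h1 x).1 hx, fun _ => Or.inr ?_⟩)
  · show a.h * (g * a.h)⁻¹ ∈ a.E.E
    rw [show a.h * (g * a.h)⁻¹ = g⁻¹ by group]
    exact inv_mem hg
  · show g * a.h * a.h⁻¹ ∈ a.E.E
    rwa [mul_inv_cancel_right]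

theorem mem_of_fix {g : H} {a : Pt H} (h : r0 g (xx a) = xx a) : g ∈ a.E.E := by
  rw [r0_xx] at h
  have h1 := xx_le.1 h.le
  have h2 := xx_le.1 h.ge
  have h3 := h1.2 h2.1
  have h4 := h2.2 h1.1
  have h3' : (a.E.cj g).Q g⁻¹ := by
    have e : a.h * (g * a.h)⁻¹ = g⁻¹ := by group
    rw [← e]
    exact h3
  have h4' : a.E.Q g := by
    have e : g * a.h * a.h⁻¹ = g := by group
    rw [← e]
    exact h4
  rcases h4' with e | e
  · rcases h3' with e' | e'
    · rw [le_antisymm (one_le_inv'.1 e') e]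
      exact one_mem _
    · simpa using h2.1 e'
  · exact e

theorem r0_one (y : XX H) : r0 1 y = y := by
  obtain ⟨a, rfl⟩ := xx_surj y
  exact r0_fix (one_mem _)

/-- The action on the chain. -/
noncomputable def rho : H →* (XX H ≃o XX H) where
  toFun g := OrderIso.ofHomInv (r0 g) (r0 g⁻¹)
    (OrderHom.ext _ _ (funext fun y => by
      show r0 g (r0 g⁻¹ y) = y
      rw [r0_r0, mul_inv_cancel, r0_one]))
    (OrderHom.ext _ _ (funext fun y => by
      show r0 g⁻¹ (r0 g y) = y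
      rw [r0_r0, inv_mul_cancel, r0_one]))
  map_one' := DFunLike.ext _ _ (fun y => r0_one y)
  map_mul' g k := DFunLike.ext _ _ (fun y => (r0_r0 g k y).symm)

theorem rho_apply (g : H) (y : XX H) : rho g y = r0 g y := rfl

theorem rho_F (h : H) (y y' : XX H) (hy : rho h y = y) (hle : y' ≤ y) : rho h y' = y' := by
  obtain ⟨a, rfl⟩ := xx_surj y
  obtain ⟨b, rfl⟩ := xx_surj y'
  exact r0_fix ((xx_le.1 hle).1 (mem_of_fix hy))

/-- The largest convex subgroup not containing `c`. -/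
def low (c : H) (hc : 1 < c) : CS H where
  E := { carrier := {e | ∀ k : ℕ, e ^ k < c ∧ (e⁻¹) ^ k < c}
         mul_mem' := by
           intro a b ha hb
           have hm : ∀ k : ℕ, (max (max a a⁻¹) (max b b⁻¹)) ^ k < c := by
             intro k
             rcases max_choice (max a a⁻¹) (max b b⁻¹) with e | e <;> rw [e]
             · rcases max_choice a a⁻¹ with e | e <;> rw [e]
               · exact (ha k).1
               · exact (ha k).2
             · rcases max_choice b b⁻¹ with e | e <;> rw [e]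
               · exact (hb k).1
               · exact (hb k).2
           intro k
           constructor
           · refine lt_of_le_of_lt ?_ (hm (2 * k))
             rw [pow_mul, pow_two]
             exact pow_le_pow_left' (mul_le_mul' (le_max_of_le_left (le_max_left _ _))
               (le_max_of_le_right (le_max_left _ _))) k
           · refine lt_of_le_of_lt ?_ (hm (2 * k))
             rw [pow_mul, pow_two, mul_inv_rev]
             exact pow_le_pow_left' (mul_le_mul' (le_max_of_le_right (le_max_right _ _))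
               (le_max_of_le_left (le_max_right _ _))) k
         one_mem' := by
           intro k
           simpa using hc
         inv_mem' := by
           intro a ha k
           rw [inv_inv]
           exact (ha k).symm }
  conv := by
    intro a b h1 h2 hb k
    refine ⟨(pow_le_pow_left' h2 k).trans_lt (hb k).1, lt_of_le_of_lt ?_ hc⟩
    exact pow_le_one' (inv_le_one'.2 h1) k

theorem mem_low {c e : H} {hc : 1 < c} :
    e ∈ (low c hc).E ↔ ∀ k : ℕ, e ^ k < c ∧ (e⁻¹) ^ k < c := Iff.rfl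

theorem not_mem_low {c : H} (hc : 1 < c) : c ∉ (low c hc).E := fun h => by
  simpa using (h 1).1

theorem le_low {c : H} (hc : 1 < c) {E : CS H} (h : c ∉ E.E) : E.E ≤ (low c hc).E := by
  intro e he k
  constructor
  · by_contra h1
    exact h (E.conv _ _ hc.le (not_lt.1 h1) (pow_mem he k))
  · by_contra h1
    exact h (E.conv _ _ hc.le (not_lt.1 h1) (pow_mem (inv_mem he) k))

theorem cj_low {c : H} (hc : 1 < c) (x : H) :
    x ∈ ((low c hc).cj c).E ↔ x ∈ (low c hc).E := by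
  constructor
  · apply le_low hc
    rw [CS.mem_cj]
    simpa using not_mem_low hc
  · intro hx
    rw [CS.mem_cj]
    have h1 : ((low c hc).cj c⁻¹).E ≤ (low c hc).E := by
      apply le_low hc
      rw [CS.mem_cj]
      simpa using not_mem_low hc
    apply h1
    rw [CS.mem_cj]
    rwa [show c⁻¹⁻¹ * (c⁻¹ * x * c) * c⁻¹ = x by group]

theorem rho_P {g : H} (hg : 1 < g) : xx ⟨low g hg, 1⟩ < rho g (xx ⟨low g hg, 1⟩) ∧
    ∀ y, y ≤ xx ⟨low g hg, 1⟩ → y ≤ rho g y := by
  have key : ∀ y, y ≤ xx ⟨low g hg, 1⟩ → y ≤ rho g y := by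
    intro y hy
    obtain ⟨a, rfl⟩ := xx_surj y
    by_cases h : g ∈ a.E.E
    · exact (r0_fix h).ge
    · have h1 : a.E.E = (low g hg).E := le_antisymm (le_low hg h) (xx_le.1 hy).1
      refine xx_le.2 ⟨fun x hx => ?_, fun _ => Or.inl ?_⟩
      · have hx' : g⁻¹ * x * g ∈ a.E.E := hx
        rw [h1] at hx' ⊢
        exact (cj_low hg x).1 hx'
      · show 1 ≤ g * a.h * a.h⁻¹
        rw [mul_inv_cancel_right]
        exact hg.le
  exact ⟨lt_of_le_of_ne (key _ le_rfl) (fun e => not_mem_low hg (mem_of_fix e.symm)), key⟩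

theorem rho_S (h : H) : (∀ y, rho h y = y) ∨ ∃ y1, rho h y1 ≠ y1 ∧
      ((∀ y, y ≤ y1 → y ≤ rho h y) ∨ (∀ y : XX H, y ≤ y1 → rho h y ≤ y)) := by
  rcases lt_trichotomy 1 h with e | e | e
  · exact Or.inr ⟨_, (rho_P e).1.ne', Or.inl (rho_P e).2⟩
  · left
    intro y
    rw [← e, map_one]
    rfl
  · have e' : 1 < h⁻¹ := one_lt_inv'.2 e
    obtain ⟨h1, h2⟩ := rho_P e'
    have h3 : ∀ y : XX H, rho h (rho h⁻¹ y) = y := fun y => by
      rw [rho_apply, rho_apply, r0_r0, mul_inv_cancel, r0_one]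
    refine Or.inr ⟨xx ⟨low h⁻¹ e', 1⟩, fun e2 => ?_, Or.inr (fun y hy => ?_)⟩
    · have := (rho h).strictMono h1
      rw [h3, e2] at this
      exact lt_irrefl _ this
    · have := (rho h).monotone (h2 y hy)
      rwa [h3] at this

theorem xx_bot (y : XX H) : xx ⟨⟨⊤, fun _ _ _ _ _ => trivial⟩, 1⟩ ≤ y := by
  obtain ⟨a, rfl⟩ := xx_surj y
  exact xx_le.2 ⟨le_top, fun _ => Or.inr trivial⟩

/-- `b` and `c` are positive and differ by an element infinitely smaller than `c`. -/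
def Near (b c : H) : Prop := 1 < c ∧ ∀ k : ℕ, (b * c⁻¹) ^ k < c ∧ ((b * c⁻¹)⁻¹) ^ k < c

/-- The equation which is made solvable. -/
def Solved {G : Type} [Group G] (b c : G) : Prop :=
  ∃ x f : G, f * (x * c * x⁻¹ * c) * f⁻¹ = x * b * x⁻¹ * b

/-- The one-step extension, in terms of a positive cone. -/
theorem one_step {b c : H} (h : Near b c) :
    ∃ (G : Type) (_ : Group G) (P : G → Prop) (φ : H →* G),
      (∀ u v, P u → P v → P (u * v)) ∧ (∀ u v, P u → P (v * u * v⁻¹)) ∧ ¬ P 1 ∧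
      (∀ u, u ≠ 1 → P u ∨ P u⁻¹) ∧ (∀ x, 1 < x → P (φ x)) ∧ Solved (φ b) (φ c) := by
  obtain ⟨hc, he⟩ := h
  let o : XX H := xx ⟨low c hc, 1⟩
  have hbc : rho b o = rho c o := by
    have e1 : rho b o = r0 (b * c⁻¹) (r0 c o) := by
      rw [r0_r0, inv_mul_cancel_right]
      rfl
    rw [e1]
    exact r0_fix (a := Pt.sm c ⟨low c hc, 1⟩) ((cj_low hc _).2 he)
  refine ⟨Tame o rho, inferInstance, fun u => Pos (u : Lam o ≃o Lam o),
    (emb o rho).codRestrict _ (emb_mem xx_bot), fun u v hu hv => hu.mul hv,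
    fun u v hu => hu.conj v, not_pos_one, fun u hu => ?_, fun x hx => ?_, ?_⟩
  · exact tame_sign rho_F rho_S u.2 (fun e => hu (Subtype.ext e))
  · exact emb_pos (rho_P hx).1 (rho_P hx).2
  · obtain ⟨x, hx, f, hf, e⟩ := exists_solution xx_bot rho_F hbc (rho_P hc).1
    exact ⟨⟨x, hx⟩, ⟨f, hf⟩, Subtype.ext e⟩

end Pool.Agent.H256Z.OS
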