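import Pool.Agent.H256Z.OS.Key

/-! The embedding into the tame group and the conjugacy. -/

set_option autoImplicit false

namespace Pool.Agent.H256Z.OS

open Set

variable {X : Type} [LinearOrder X] {o : X} {H : Type} [Group H] (ρ : H →* (X ≃o X))

/-- The action on the letters with nonnegative integer coordinate. -/
def tr0 (h : H) (a : T X) : T X := if 0 ≤ a.n then ⟨a.n, ρ h a.y⟩ else a

theorem tr0_n (h : H) (a : T X) : (tr0 ρ h a).n = a.n := by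
  unfold tr0
  split_ifs <;> rfl

theorem tr0_nonneg (h : H) {a : T X} (ha : 0 ≤ a.n) : tr0 ρ h a = ⟨a.n, ρ h a.y⟩ := if_pos ha

theorem tr0_neg (h : H) {a : T X} (ha : a.n < 0) : tr0 ρ h a = a := if_neg (not_le.2 ha)

theorem tr0_tr0 (h k : H) (a : T X) : tr0 ρ h (tr0 ρ k a) = tr0 ρ (h * k) a := by
  rcases le_or_gt 0 a.n with ha | ha
  · rw [tr0_nonneg ρ k ha, tr0_nonneg ρ h (a := ⟨a.n, ρ k a.y⟩) ha, tr0_nonneg ρ _ ha, map_mul]
    rfl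
  · rw [tr0_neg ρ k ha, tr0_neg ρ h ha, tr0_neg ρ _ ha]

theorem tr0_one (a : T X) : tr0 ρ 1 a = a := by
  rcases le_or_gt 0 a.n with ha | ha
  · rw [tr0_nonneg ρ 1 ha, map_one]
    rfl
  · rw [tr0_neg ρ 1 ha]

theorem tr0_strictMono (h : H) : StrictMono (tr0 ρ h) := by
  intro a b hab
  rw [T.lt_def] at hab ⊢
  rw [tr0_n, tr0_n]
  rcases hab with hab | hab
  · exact Or.inl hab
  · refine Or.inr ⟨hab.1, ?_⟩
    rcases le_or_gt 0 a.n with ha | ha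
    · rw [tr0_nonneg ρ h ha, tr0_nonneg ρ h (hab.1 ▸ ha)]
      exact (ρ h).strictMono hab.2
    · rw [tr0_neg ρ h ha, tr0_neg ρ h (hab.1 ▸ ha)]
      exact hab.2

/-- The truncated action as a homomorphism. -/
noncomputable def tr : H →* (T X ≃o T X) where
  toFun h := (tr0_strictMono ρ h).orderIsoOfSurjective (tr0 ρ h) (fun a =>
    ⟨tr0 ρ h⁻¹ a, by rw [tr0_tr0, mul_inv_cancel, tr0_one]⟩)
  map_one' := DFunLike.ext _ _ (fun a => tr0_one ρ a)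
  map_mul' h k := DFunLike.ext _ _ (fun a => (tr0_tr0 ρ h k a).symm)

theorem tr_apply (h : H) (a : T X) : tr ρ h a = tr0 ρ h a := rfl

variable {ρ}

theorem fix_bot {z : X} (hz : ∀ y, z ≤ y) (h : H) : ρ h z = z := by
  refine le_antisymm ?_ (hz _)
  have := (ρ h).monotone (hz ((ρ h).symm z))
  rwa [OrderIso.apply_symm_apply] at this

theorem tr_fix {z : X} (hz : ∀ y, z ≤ y) (h : H) {a : T X} (ha : a ≤ ⟨0, z⟩) :
    tr ρ h a = a := by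
  rw [tr_apply]
  rcases T.le_def.1 ha with h1 | h1
  · exact tr0_neg ρ h h1
  · rw [tr0_nonneg ρ h h1.1.ge, le_antisymm h1.2 (hz _), fix_bot hz]
    ext
    · rfl
    · exact (le_antisymm h1.2 (hz _)).symm

theorem loc_tr {z : X} (hz : ∀ y, z ≤ y) (h : H) : Loc ρ ⇑(hd o (tr ρ h)) := by
  rintro U - ⟨x, hx⟩ ⟨y, hy⟩
  by_cases hw : lo o ⟨0, z⟩ ∈ U
  · refine ⟨_, hw, y, hy, model_hd 0 h (fun l hl => ?_)⟩
    have e1 : (⟨0, z⟩ : T X) ≤ l.s 0 := Lam.le_zero hl.1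
    have e2 : 0 ≤ (l.s 0).n := by
      rcases T.le_def.1 e1 with e | e
      · exact e.le
      · exact e.1.le
    rw [tr_apply, tr0_nonneg ρ h e2, act, add_zero]
  · refine ⟨x, hx, _, hw, model_hd 0 1 (fun l hl => ?_)⟩
    rw [act_zero]
    exact tr_fix hz h (Lam.le_zero hl.2)

variable (o ρ)

/-- The embedding. -/
noncomputable def emb : H →* (Lam o ≃o Lam o) :=
  (MulAut.conj (Phi o)).toMonoidHom.comp ((hd o).comp (tr ρ))

theorem emb_eq (h : H) : emb o ρ h = Phi o * hd o (tr ρ h) * (Phi o)⁻¹ := rfl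

theorem emb_Phi (h : H) (l : Lam o) : emb o ρ h (Phi o l) = Phi o (hd o (tr ρ h) l) := by
  rw [emb_eq]
  show Phi o (hd o (tr ρ h) ((Phi o).symm (Phi o l))) = _
  rw [OrderIso.symm_apply_apply]

variable {o ρ}

theorem emb_mem {z : X} (hz : ∀ y, z ≤ y) (h : H) : emb o ρ h ∈ Tame o ρ := by
  refine ⟨?_, Phi o (lo o ⟨0, z⟩), 0, fun l hl => ?_⟩
  · rw [emb_eq]
    exact (loc_Phi.mul (loc_tr hz h)).mul loc_Phi.inv
  · obtain ⟨m, rfl⟩ := (Phi o).surjective l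
    have hm : m ≤ lo o ⟨0, z⟩ := (Phi o).le_iff_le.1 hl
    rw [emb_Phi, shT_zero, map_one, hd_apply, hd0_id (tr_fix hz h (Lam.le_zero hm))]
    rfl

theorem emb_pos {h : H} {y1 : X} (h1 : y1 < ρ h y1) (h2 : ∀ y, y ≤ y1 → y ≤ ρ h y) :
    Pos (emb o ρ h) := by
  rw [emb_eq]
  apply Pos.conj
  refine ⟨lo o ⟨0, y1⟩, Lam.lt_zero ?_, fun l hl => ?_⟩
  · show (⟨0, y1⟩ : T X) < tr0 ρ h ⟨0, y1⟩
    rw [tr0_nonneg ρ h le_rfl]
    exact T.lt_def.2 (Or.inr ⟨rfl, h1⟩)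
  · have e1 : l.s 0 ≤ ⟨0, y1⟩ := Lam.le_zero hl
    have e2 : l.s 0 ≤ tr ρ h (l.s 0) := by
      rw [tr_apply]
      rcases T.le_def.1 e1 with e | e
      · rw [tr0_neg ρ h e]
      · rw [tr0_nonneg ρ h e.1.ge]
        exact T.le_def.2 (Or.inr ⟨rfl, h2 _ e.2⟩)
    rcases e2.eq_or_lt with e2 | e2
    · rw [hd_apply, hd0_id e2.symm]
    · exact (Lam.lt_zero e2).le

theorem emb_lo {c : H} (hc : o < ρ c o) {n : ℤ} (hn : 0 ≤ n) :
    emb o ρ c (lo o ⟨2 * n - 1, o⟩) = lo o ⟨2 * n, ρ c o⟩ := by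
  rw [← Phi_lo, emb_Phi, ← Phi_lo_gt n hc]
  congr 1
  show lo o (tr0 ρ c ⟨n, o⟩) = _
  rw [tr0_nonneg ρ c hn]

theorem emb_hi {c : H} (hc : o < ρ c o) :
    emb o ρ c (hi o ⟨0, o⟩) = hi o ⟨0, ρ c o⟩ := by
  have e1 := Phi_hi (o := o) 0
  have e2 := Phi_hi_gt (o := o) 0 hc
  rw [mul_zero] at e1 e2
  rw [← e1, emb_Phi, ← e2]
  congr 1

theorem sh_inv : (hd o (shT 1))⁻¹ = hd o (shT (-1)) := by
  rw [inv_eq_iff_mul_eq_one, ← map_mul, shT_mul, neg_add_cancel, shT_zero, map_one]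

theorem push_lo {c : H} (hc : o < ρ c o) {n : ℤ} (hn : 0 ≤ n) :
    lo o ⟨2 * (n + 1) - 1, o⟩ ≤
      (hd o (shT 1) * emb o ρ c * (hd o (shT 1))⁻¹ * emb o ρ c) (lo o ⟨2 * n - 1, o⟩) := by
  rw [sh_inv]
  show _ ≤ hd o (shT 1) (emb o ρ c (hd o (shT (-1)) (emb o ρ c (lo o ⟨2 * n - 1, o⟩))))
  rw [emb_lo hc hn]
  have e1 : lo o ⟨2 * n - 1, o⟩ ≤ hd o (shT (-1)) (lo o ⟨2 * n, ρ c o⟩) :=
    lo_le (T.le_def.2 (Or.inr ⟨rfl, hc.le⟩))
  refine le_trans ?_ ((hd o (shT 1)).monotone ((emb o ρ c).monotone e1))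
  rw [emb_lo hc hn]
  exact lo_le (T.le_def.2 (Or.inr ⟨by show 2 * (n + 1) - 1 = 2 * n + 1; ring, hc.le⟩))

theorem push_pow {c : H} (hc : o < ρ c o) (n : ℕ) :
    lo o ⟨2 * (n : ℤ) - 1, o⟩ ≤
      ((hd o (shT 1) * emb o ρ c * (hd o (shT 1))⁻¹ * emb o ρ c) ^ n) (hi o ⟨0, o⟩) := by
  induction n with
  | zero => exact lo_le (T.le_def.2 (Or.inl (by show (2 * ((0 : ℕ) : ℤ) - 1) < 0; simp)))
  | succ n ih =>
    rw [pow_succ']
    refine le_trans ?_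
      ((hd o (shT 1) * emb o ρ c * (hd o (shT 1))⁻¹ * emb o ρ c).monotone ih)
    have := push_lo hc (n := n) (Int.natCast_nonneg n)
    push_cast
    exact this

theorem push_cof {c : H} (hc : o < ρ c o) (l : Lam o) : ∃ n : ℕ, l ≤
      ((hd o (shT 1) * emb o ρ c * (hd o (shT 1))⁻¹ * emb o ρ c) ^ n) (hi o ⟨0, o⟩) := by
  refine ⟨(l.s 0).n.toNat + 2, le_trans (Lam.lt_zero ?_).le (push_pow hc _)⟩
  refine T.lt_def.2 (Or.inl ?_)
  show (l.s 0).n < 2 * (((l.s 0).n.toNat + 2 : ℕ) : ℤ) - 1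
  omega

theorem emb_agree (hF : ∀ h y y', ρ h y = y → y' ≤ y → ρ h y' = y') {b c : H}
    (hbc : ρ b o = ρ c o) {l : Lam o} (hl : l ≤ hi o ⟨0, o⟩) : emb o ρ b l = emb o ρ c l := by
  obtain ⟨m, rfl⟩ := (Phi o).surjective l
  have e1 := Phi_hi (o := o) 0
  rw [mul_zero] at e1
  rw [← e1] at hl
  have hm : m.s 0 ≤ ⟨0, o⟩ := Lam.le_zero ((Phi o).le_iff_le.1 hl)
  rw [emb_Phi, emb_Phi]
  congr 1
  show hd0 _ m = hd0 _ m
  unfold hd0
  congr 1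
  show tr0 ρ b (m.s 0) = tr0 ρ c (m.s 0)
  rcases T.le_def.1 hm with e | e
  · rw [tr0_neg ρ b e, tr0_neg ρ c e]
  · rw [tr0_nonneg ρ b e.1.ge, tr0_nonneg ρ c e.1.ge]
    congr 1
    have e3 : ρ (c⁻¹ * b) o = o := by
      rw [map_mul, map_inv]
      show (ρ c).symm (ρ b o) = o
      rw [hbc, OrderIso.symm_apply_apply]
    have e4 := hF _ _ _ e3 e.2
    rw [map_mul, map_inv] at e4
    have e5 : (ρ c).symm (ρ b (m.s 0).y) = (m.s 0).y := e4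
    rw [← e5, OrderIso.apply_symm_apply, e5]

theorem exists_solution {z : X} (hz : ∀ y, z ≤ y)
    (hF : ∀ h y y', ρ h y = y → y' ≤ y → ρ h y' = y') {b c : H}
    (hbc : ρ b o = ρ c o) (hc : o < ρ c o) :
    ∃ x ∈ Tame o ρ, ∃ f ∈ Tame o ρ, f * (x * emb o ρ c * x⁻¹ * emb o ρ c) * f⁻¹ =
      x * emb o ρ b * x⁻¹ * emb o ρ b := by
  have hb : o < ρ b o := hbc ▸ hc
  obtain ⟨f, hf1, hf2⟩ := exists_conj
    (hd o (shT 1) * emb o ρ b * (hd o (shT 1))⁻¹ * emb o ρ b)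
    (hd o (shT 1) * emb o ρ c * (hd o (shT 1))⁻¹ * emb o ρ c) (hi o ⟨0, o⟩) (fun l hl => by
      rw [sh_inv]
      show hd o (shT 1) (emb o ρ b (hd o (shT (-1)) (emb o ρ b l))) =
        hd o (shT 1) (emb o ρ c (hd o (shT (-1)) (emb o ρ c l)))
      rw [emb_agree hF hbc hl]
      congr 1
      apply emb_agree hF hbc
      refine le_trans ((hd o (shT (-1))).monotone ((emb o ρ c).monotone hl)) ?_
      rw [emb_hi hc]
      exact le_hi (T.le_def.2 (Or.inl (by show (0 : ℤ) + -1 < 0; norm_num))))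
    (by
      have e1 : lo o ⟨2 * 0 - 1, o⟩ ≤ hi o ⟨0, o⟩ :=
        lo_le (T.le_def.2 (Or.inl (by show (2 * 0 - 1 : ℤ) < 0; norm_num)))
      refine le_trans ?_ (le_trans (push_lo hc le_rfl) (OrderIso.monotone _ e1))
      exact (Lam.lt_zero (T.lt_def.2 (Or.inl (by show (0 : ℤ) < 2 * (0 + 1) - 1; norm_num)))).le)
    (push_cof hc) (push_cof hb)
  refine ⟨_, sh_mem 1, f, tame_of_local (fun l => ?_), hf1⟩
  obtain ⟨n, hn⟩ := hf2 l
  refine ⟨_, ?_, hn⟩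
  have hx := sh_mem (o := o) (ρ := ρ) 1
  exact mul_mem (pow_mem (mul_mem (mul_mem (mul_mem hx (emb_mem hz b)) (inv_mem hx))
    (emb_mem hz b)) n) (inv_mem (pow_mem (mul_mem (mul_mem (mul_mem hx (emb_mem hz c))
    (inv_mem hx)) (emb_mem hz c)) n))

end Pool.Agent.H256Z.OS
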