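import Pool.Agent.H256Z.OS.Chain

/-! Reduction to pairs which differ by an infinitely smaller element. -/

set_option autoImplicit false
set_option linter.unusedSectionVars false

namespace Pool.Agent.H256Z.OS

/-- The normal subsemigroup generated by `a`. -/
inductive NS {G : Type} [Group G] (a : G) : G → Prop
  | conj (g : G) : NS a (g * a * g⁻¹)
  | mul {x y : G} : NS a x → NS a y → NS a (x * y)

section NSL
variable {G : Type} [Group G] {a x y : G}

theorem NS.self (a : G) : NS a a := by simpa using NS.conj (a := a) 1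

theorem NS.conj_mem (h : NS a x) (g : G) : NS a (g * x * g⁻¹) := by
  induction h with
  | conj k =>
    have := NS.conj (a := a) (g * k)
    rwa [show g * k * a * (g * k)⁻¹ = g * (k * a * k⁻¹) * g⁻¹ by group] at this
  | @mul x y _ _ ihx ihy =>
    have := ihx.mul ihy
    rwa [show g * x * g⁻¹ * (g * y * g⁻¹) = g * (x * y) * g⁻¹ by group] at this

theorem NS.trans (h : NS a x) (h' : NS x y) : NS a y := by
  induction h' with
  | conj k => exact h.conj_mem k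
  | mul _ _ ihx ihy => exact ihx.mul ihy

theorem NS.inv (h : NS a x) : NS a⁻¹ x⁻¹ := by
  induction h with
  | conj k =>
    have := NS.conj (a := a⁻¹) k
    rwa [show k * a⁻¹ * k⁻¹ = (k * a * k⁻¹)⁻¹ by group] at this
  | mul _ _ ihx ihy =>
    rw [mul_inv_rev]
    exact ihy.mul ihx

end NSL

variable {G : Type} [Group G] [LinearOrder G] [MulLeftMono G] [MulRightMono G]

theorem cj_le {a b : G} (g : G) (h : a ≤ b) : g * a * g⁻¹ ≤ g * b * g⁻¹ := by
  simpa using conj_le_conj g⁻¹ h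

theorem one_lt_cj {a : G} (g : G) (h : 1 < a) : 1 < g * a * g⁻¹ := by
  simpa using conj_lt_conj g⁻¹ h

theorem NS.one_lt {a x : G} (ha : 1 < a) (h : NS a x) : 1 < x := by
  induction h with
  | conj k => exact one_lt_cj k ha
  | mul _ _ ihx ihy => exact one_lt_mul_of_lt_of_le' ihx ihy.le

theorem zp_strictMono {a : G} (ha : 1 < a) : StrictMono (fun n : ℤ => a ^ n) := by
  apply strictMono_int_of_lt_succ
  intro n
  rw [zpow_add_one]
  exact lt_of_le_of_ne (le_mul_of_one_le_right' ha.le) (fun e => ha.ne' (by simpa using e))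

theorem sw1 {x y : G} (h : x * y ≤ y * x) (k : ℕ) : x * y ^ k ≤ y ^ k * x := by
  induction k with
  | zero => simp
  | succ k ih =>
    calc x * y ^ (k + 1) = x * y ^ k * y := by rw [pow_succ, mul_assoc]
      _ ≤ y ^ k * x * y := mul_le_mul_left ih _
      _ = y ^ k * (x * y) := mul_assoc _ _ _
      _ ≤ y ^ k * (y * x) := mul_le_mul_right h _
      _ = y ^ (k + 1) * x := by rw [pow_succ, mul_assoc]

theorem sw2 {x y : G} (h : x * y ≤ y * x) (n : ℕ) :
    x ^ n * y ^ n ≤ (x * y) ^ n ∧ (x * y) ^ n ≤ y ^ n * x ^ n := by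
  induction n with
  | zero => simp
  | succ n ih =>
    constructor
    · calc x ^ (n + 1) * y ^ (n + 1) = x ^ n * (x * y ^ n) * y := by
            rw [pow_succ, pow_succ]; simp only [mul_assoc]
        _ ≤ x ^ n * (y ^ n * x) * y := mul_le_mul_left (mul_le_mul_right (sw1 h n) _) _
        _ = x ^ n * y ^ n * (x * y) := by simp only [mul_assoc]
        _ ≤ (x * y) ^ n * (x * y) := mul_le_mul_left ih.1 _
        _ = (x * y) ^ (n + 1) := (pow_succ _ _).symm
    · calc (x * y) ^ (n + 1) = x * y * (x * y) ^ n := pow_succ' _ _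
        _ ≤ x * y * (y ^ n * x ^ n) := mul_le_mul_right ih.2 _
        _ = x * y ^ (n + 1) * x ^ n := by rw [pow_succ']; simp only [mul_assoc]
        _ ≤ y ^ (n + 1) * x * x ^ n := mul_le_mul_left (sw1 h (n + 1)) _
        _ = y ^ (n + 1) * x ^ (n + 1) := by rw [pow_succ' x, mul_assoc]

theorem sw3 (x y : G) (n : ℕ) :
    (x ^ n * y ^ n ≤ (x * y) ^ n ∧ (x * y) ^ n ≤ y ^ n * x ^ n) ∨
    ((x * y) ^ n ≤ x ^ n * y ^ n ∧ y ^ n * x ^ n ≤ (x * y) ^ n) := by
  rcases le_total (x * y) (y * x) with h | h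
  · exact Or.inl (sw2 h n)
  · exact Or.inr (sw2 (G := Gᵒᵈ) (x := OrderDual.toDual x) (y := OrderDual.toDual y) h n)

/-- Bounded by a power of `a`. -/
def InC (a g : G) : Prop := ∃ n : ℕ, g ≤ a ^ n ∧ g⁻¹ ≤ a ^ n

variable {a : G}

theorem InC.inv {g : G} (h : InC a g) : InC a g⁻¹ := by
  obtain ⟨n, h1, h2⟩ := h
  exact ⟨n, h2, by rwa [inv_inv]⟩

theorem InC.mul {g k : G} (h : InC a g) (h' : InC a k) : InC a (g * k) := by
  obtain ⟨n, h1, h2⟩ := h
  obtain ⟨m, h3, h4⟩ := h'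
  refine ⟨n + m, by rw [pow_add]; exact mul_le_mul' h1 h3, ?_⟩
  rw [mul_inv_rev, add_comm, pow_add]
  exact mul_le_mul' h4 h2

theorem InC.one : InC a 1 := ⟨0, by simp, by simp⟩

theorem InC.pow {g : G} (h : InC a g) (n : ℕ) : InC a (g ^ n) := by
  induction n with
  | zero => simpa using InC.one
  | succ n ih => rw [pow_succ]; exact ih.mul h

theorem InC.zpow {g : G} (h : InC a g) (n : ℤ) : InC a (g ^ n) := by
  cases n with
  | ofNat n => simpa using h.pow n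
  | negSucc n => simpa using (h.pow (n + 1)).inv

theorem InC.self (ha : 1 < a) : InC a a :=
  ⟨1, by simp, by rw [pow_one]; exact (inv_le_one'.2 ha.le).trans ha.le⟩

theorem InC.cj {u g : G} (hu : u * a * u⁻¹ ≤ a) (h : InC a g) : InC a (u * g * u⁻¹) := by
  obtain ⟨n, h1, h2⟩ := h
  have e : u * a ^ n * u⁻¹ ≤ a ^ n := by
    rw [← conj_pow]
    exact pow_le_pow_left' hu n
  refine ⟨n, (cj_le u h1).trans e, ?_⟩
  rw [show (u * g * u⁻¹)⁻¹ = u * g⁻¹ * u⁻¹ by group]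
  exact (cj_le u h2).trans e

theorem exists_floor (ha : 1 < a) {g : G} (h : InC a g) :
    ∃ m : ℤ, a ^ m ≤ g ∧ g ≤ a ^ (m + 1) := by
  obtain ⟨n, h1, h2⟩ := h
  obtain ⟨m, hm, hmax⟩ := Int.exists_greatest_of_bdd (P := fun m : ℤ => a ^ m ≤ g)
    ⟨n, fun z hz => (zp_strictMono ha).le_iff_le.1 (by
      show a ^ z ≤ a ^ (n : ℤ)
      rw [zpow_natCast]
      exact hz.trans h1)⟩
    ⟨-n, by
      rw [zpow_neg, zpow_natCast]
      exact inv_le'.1 h2⟩
  refine ⟨m, hm, ?_⟩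
  by_contra h3
  have := hmax _ (not_le.1 h3).le
  omega

/-- The real number attached to `g`. -/
noncomputable def chi (a g : G) : ℝ :=
  sSup {r : ℝ | ∃ (m : ℤ) (n : ℕ), 0 < n ∧ a ^ m ≤ g ^ n ∧ r = m / n}

theorem chi_ub (ha : 1 < a) {g : G} {m : ℤ} {n : ℕ} (hn : 0 < n) (h : g ^ n ≤ a ^ m) :
    ∀ r ∈ {r : ℝ | ∃ (m : ℤ) (n : ℕ), 0 < n ∧ a ^ m ≤ g ^ n ∧ r = m / n}, r ≤ m / n := by
  rintro r ⟨m', n', hn', h', rfl⟩
  have e1 : a ^ (m' * n) ≤ a ^ (m * n') := by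
    rw [zpow_mul, zpow_mul, zpow_natCast, zpow_natCast]
    calc (a ^ m') ^ n ≤ (g ^ n') ^ n := pow_le_pow_left' h' n
      _ = (g ^ n) ^ n' := by rw [← pow_mul, ← pow_mul, mul_comm]
      _ ≤ (a ^ m) ^ n' := pow_le_pow_left' h n'
  have e2 : m' * n ≤ m * n' := (zp_strictMono ha).le_iff_le.1 e1
  rw [div_le_div_iff₀ (by exact_mod_cast hn') (by exact_mod_cast hn)]
  exact_mod_cast e2

theorem chi_lo (ha : 1 < a) {g : G} (hg : InC a g) {m : ℤ} {n : ℕ} (hn : 0 < n)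
    (h : a ^ m ≤ g ^ n) : (m : ℝ) ≤ n * chi a g := by
  obtain ⟨k, -, hk⟩ := exists_floor ha hg
  have hb : BddAbove {r : ℝ | ∃ (m : ℤ) (n : ℕ), 0 < n ∧ a ^ m ≤ g ^ n ∧ r = m / n} :=
    ⟨_, chi_ub ha (n := 1) one_pos (by rw [pow_one]; exact hk)⟩
  have := le_csSup hb ⟨m, n, hn, h, rfl⟩
  rw [div_le_iff₀ (by exact_mod_cast hn)] at this
  rw [mul_comm]
  exact this

theorem chi_hi (ha : 1 < a) {g : G} (hg : InC a g) {m : ℤ} {n : ℕ} (hn : 0 < n)
    (h : g ^ n ≤ a ^ m) : n * chi a g ≤ (m : ℝ) := by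
  obtain ⟨k, hk, -⟩ := exists_floor ha hg
  have := csSup_le (s := {r : ℝ | ∃ (m : ℤ) (n : ℕ), 0 < n ∧ a ^ m ≤ g ^ n ∧ r = m / n})
    ⟨_, k, 1, one_pos, by rw [pow_one]; exact hk, rfl⟩ (chi_ub ha hn h)
  rw [le_div_iff₀ (by exact_mod_cast hn)] at this
  rw [mul_comm]
  exact this

theorem nonpos_of_bdd {t K : ℝ} (h : ∀ n : ℕ, 0 < n → n * t ≤ K) : t ≤ 0 := by
  by_contra ht
  have ht' := not_le.1 ht
  obtain ⟨n, hn⟩ := exists_nat_gt (K / t)
  have := h (n + 1) (Nat.succ_pos n)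
  rw [div_lt_iff₀ ht'] at hn
  push_cast at this
  nlinarith

theorem chi_mono (ha : 1 < a) {g k : G} (hg : InC a g) (hk : InC a k) (h : g ≤ k) :
    chi a g ≤ chi a k := by
  have := nonpos_of_bdd (t := chi a g - chi a k) (K := 1) (fun n hn => by
    obtain ⟨m, h1, h2⟩ := exists_floor ha (hg.pow n)
    have e1 := chi_hi ha hg hn h2
    have e2 := chi_lo ha hk hn (h1.trans (pow_le_pow_left' h n))
    push_cast at e1
    linarith)
  linarith

theorem chi_mul (ha : 1 < a) {g k : G} (hg : InC a g) (hk : InC a k) :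
    chi a (g * k) = chi a g + chi a k := by
  have key : ∀ n : ℕ, 0 < n → n * (chi a (g * k) - (chi a g + chi a k)) ≤ 2 ∧
      n * (chi a g + chi a k - chi a (g * k)) ≤ 2 := by
    intro n hn
    obtain ⟨m, h1, h2⟩ := exists_floor ha (hg.pow n)
    obtain ⟨l, h3, h4⟩ := exists_floor ha (hk.pow n)
    have e1 := chi_hi ha hg hn h2
    have e2 := chi_lo ha hg hn h1
    have e3 := chi_hi ha hk hn h4
    have e4 := chi_lo ha hk hn h3
    have f1 : a ^ (m + l) ≤ g ^ n * k ^ n := by rw [zpow_add]; exact mul_le_mul' h1 h3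
    have f2 : a ^ (m + l) ≤ k ^ n * g ^ n := by rw [add_comm, zpow_add]; exact mul_le_mul' h3 h1
    have f3 : g ^ n * k ^ n ≤ a ^ (m + 1 + (l + 1)) := by
      rw [zpow_add]; exact mul_le_mul' h2 h4
    have f4 : k ^ n * g ^ n ≤ a ^ (m + 1 + (l + 1)) := by
      rw [add_comm, zpow_add]; exact mul_le_mul' h4 h2
    have f5 : a ^ (m + l) ≤ (g * k) ^ n ∧ (g * k) ^ n ≤ a ^ (m + 1 + (l + 1)) := by
      rcases sw3 g k n with e | e
      · exact ⟨f1.trans e.1, e.2.trans f4⟩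
      · exact ⟨f2.trans e.2, e.1.trans f3⟩
    have e5 := chi_hi ha (hg.mul hk) hn f5.2
    have e6 := chi_lo ha (hg.mul hk) hn f5.1
    push_cast at e1 e3 e5 e6
    constructor <;> linarith
  have h1 := nonpos_of_bdd (fun n hn => (key n hn).1)
  have h2 := nonpos_of_bdd (fun n hn => (key n hn).2)
  linarith

theorem chi_one (ha : 1 < a) : chi a 1 = 0 := by
  have := chi_mul ha (InC.one (a := a)) InC.one
  rw [mul_one] at this
  linarith

theorem chi_inv (ha : 1 < a) {g : G} (hg : InC a g) : chi a g⁻¹ = -chi a g := by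
  have := chi_mul ha hg hg.inv
  rw [mul_inv_cancel, chi_one ha] at this
  linarith

theorem chi_pow (ha : 1 < a) {g : G} (hg : InC a g) (n : ℕ) : chi a (g ^ n) = n * chi a g := by
  induction n with
  | zero => simpa using chi_one ha
  | succ n ih =>
    rw [pow_succ, chi_mul ha (hg.pow n) hg, ih]
    push_cast
    ring

theorem chi_zpow (ha : 1 < a) {g : G} (hg : InC a g) (n : ℤ) : chi a (g ^ n) = n * chi a g := by
  cases n with
  | ofNat n => simpa using chi_pow ha hg n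
  | negSucc n =>
    rw [zpow_negSucc, chi_inv ha (hg.pow _), chi_pow ha hg, Int.cast_negSucc]
    ring

theorem chi_self (ha : 1 < a) : chi a a = 1 := by
  have e1 := chi_lo ha (InC.self ha) (m := 1) (n := 1) one_pos (by simp)
  have e2 := chi_hi ha (InC.self ha) (m := 1) (n := 1) one_pos (by simp)
  push_cast at e1 e2
  linarith

theorem chi_cj (ha : 1 < a) {u g : G} (hu : u * a * u⁻¹ ≤ a) (hg : InC a g) :
    chi a (u * g * u⁻¹) = chi a (u * a * u⁻¹) * chi a g := by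
  have ha' : InC a (u * a * u⁻¹) := (InC.self ha).cj hu
  have hr : 0 ≤ chi a (u * a * u⁻¹) := by
    rw [← chi_one ha]
    exact chi_mono ha InC.one ha' (one_lt_cj u ha).le
  have key : ∀ n : ℕ, 0 < n →
      n * (chi a (u * g * u⁻¹) - chi a (u * a * u⁻¹) * chi a g) ≤ chi a (u * a * u⁻¹) ∧
      n * (chi a (u * a * u⁻¹) * chi a g - chi a (u * g * u⁻¹)) ≤ chi a (u * a * u⁻¹) := by
    intro n hn
    obtain ⟨m, h1, h2⟩ := exists_floor ha (hg.pow n)
    have e1 := chi_hi ha hg hn h2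
    have e2 := chi_lo ha hg hn h1
    have h3 := cj_le u h1
    have h4 := cj_le u h2
    rw [← conj_zpow, ← conj_pow] at h3 h4
    have e3 := chi_mono ha (ha'.zpow m) ((hg.cj hu).pow n) h3
    have e4 := chi_mono ha ((hg.cj hu).pow n) (ha'.zpow (m + 1)) h4
    rw [chi_zpow ha ha', chi_pow ha (hg.cj hu)] at e3 e4
    push_cast at e1 e4
    have e5 := mul_le_mul_of_nonneg_left e1 hr
    have e6 := mul_le_mul_of_nonneg_left e2 hr
    constructor <;> nlinarith
  have h1 := nonpos_of_bdd (fun n hn => (key n hn).1)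
  have h2 := nonpos_of_bdd (fun n hn => (key n hn).2)
  linarith

/-- `b` acts like an operator on the elements bounded by powers of `a`. -/
def RR (a b : G) : Prop :=
  InC a b ∧ ∀ y, InC a y → ∃ z, NS y z ∧ InC a z ∧ chi a z = chi a b * chi a y

theorem RR.mul (ha : 1 < a) {b c : G} (hb : RR a b) (hc : RR a c) : RR a (b * c) := by
  refine ⟨hb.1.mul hc.1, fun y hy => ?_⟩
  obtain ⟨z, h1, h2, h3⟩ := hb.2 y hy
  obtain ⟨w, h4, h5, h6⟩ := hc.2 y hy
  refine ⟨z * w, h1.mul h4, h2.mul h5, ?_⟩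
  rw [chi_mul ha h2 h5, chi_mul ha hb.1 hc.1, h3, h6]
  ring

theorem RR.cj (ha : 1 < a) {b u : G} (hu : u * a * u⁻¹ ≤ a) (hb : RR a b) :
    RR a (u * b * u⁻¹) := by
  refine ⟨hb.1.cj hu, fun y hy => ?_⟩
  obtain ⟨z, h1, h2, h3⟩ := hb.2 y hy
  refine ⟨u * z * u⁻¹, h1.conj_mem u, h2.cj hu, ?_⟩
  rw [chi_cj ha hu h2, chi_cj ha hu hb.1, h3]
  ring

theorem exists_RR (ha : 1 < a) {b : G} (hb : NS a b) :
    ∃ v, RR a (v * b * v⁻¹) ∧ a ≤ v * b * v⁻¹ := by
  induction hb with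
  | conj g =>
    refine ⟨g⁻¹, ?_⟩
    rw [show g⁻¹ * (g * a * g⁻¹) * g⁻¹⁻¹ = a by group]
    exact ⟨⟨InC.self ha, fun y hy => ⟨y, NS.self y, hy, by rw [chi_self ha, one_mul]⟩⟩, le_rfl⟩
  | @mul x y hx hy ihx ihy =>
    obtain ⟨v, h1, h2⟩ := ihx
    obtain ⟨w, h3, h4⟩ := ihy
    rcases le_total (w⁻¹ * a * w) (v⁻¹ * a * v) with e | e
    · have hu : v * w⁻¹ * a * (v * w⁻¹)⁻¹ ≤ a := by
        have := cj_le v e
        rwa [show v * (v⁻¹ * a * v) * v⁻¹ = a by group,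
          show v * (w⁻¹ * a * w) * v⁻¹ = v * w⁻¹ * a * (v * w⁻¹)⁻¹ by group] at this
      have h5 := h3.cj ha hu
      rw [show v * w⁻¹ * (w * y * w⁻¹) * (v * w⁻¹)⁻¹ = v * y * v⁻¹ by group] at h5
      refine ⟨v, ?_⟩
      rw [show v * (x * y) * v⁻¹ = v * x * v⁻¹ * (v * y * v⁻¹) by group]
      exact ⟨h1.mul ha h5, h2.trans (le_mul_of_one_le_right' (one_lt_cj v (hy.one_lt ha)).le)⟩
    · have hu : w * v⁻¹ * a * (w * v⁻¹)⁻¹ ≤ a := by
        have := cj_le w e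
        rwa [show w * (w⁻¹ * a * w) * w⁻¹ = a by group,
          show w * (v⁻¹ * a * v) * w⁻¹ = w * v⁻¹ * a * (w * v⁻¹)⁻¹ by group] at this
      have h5 := h1.cj ha hu
      rw [show w * v⁻¹ * (v * x * v⁻¹) * (w * v⁻¹)⁻¹ = w * x * w⁻¹ by group] at h5
      refine ⟨w, ?_⟩
      rw [show w * (x * y) * w⁻¹ = w * x * w⁻¹ * (w * y * w⁻¹) by group]
      exact ⟨h5.mul ha h3, h4.trans (le_mul_of_one_le_left' (one_lt_cj w (hx.one_lt ha)).le)⟩

theorem reduce (ha : 1 < a) {b c : G} (hb : NS a b) (hc : NS a c) :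
    ∃ b' c', NS b b' ∧ NS c c' ∧ Near b' c' := by
  obtain ⟨v, h1, h2⟩ := exists_RR ha hb
  obtain ⟨w, h3, h4⟩ := exists_RR ha hc
  obtain ⟨b', e1, e2, e3⟩ := h3.2 _ h1.1
  obtain ⟨c', f1, f2, f3⟩ := h1.2 _ h3.1
  have g1 : 1 ≤ chi a (v * b * v⁻¹) := by
    rw [← chi_self ha]
    exact chi_mono ha (InC.self ha) h1.1 h2
  have g2 : 1 ≤ chi a (w * c * w⁻¹) := by
    rw [← chi_self ha]
    exact chi_mono ha (InC.self ha) h3.1 h4
  have g3 : 0 < chi a c' := by
    rw [f3]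
    positivity
  have g4 : chi a (b' * c'⁻¹) = 0 := by
    rw [chi_mul ha e2 f2.inv, chi_inv ha f2, e3, f3]
    ring
  have g5 : InC a (b' * c'⁻¹) := e2.mul f2.inv
  refine ⟨b', c', (NS.conj v).trans e1, (NS.conj w).trans f1,
    f1.one_lt (ha.trans_le h4), fun k => ⟨?_, ?_⟩⟩
  · by_contra h
    have := chi_mono ha f2 (g5.pow k) (not_lt.1 h)
    rw [chi_pow ha g5, g4] at this
    linarith
  · by_contra h
    have := chi_mono ha f2 (g5.inv.pow k) (not_lt.1 h)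
    rw [chi_pow ha g5.inv, chi_inv ha g5, g4] at this
    linarith

theorem meet_of_solved (hG : ∀ b c : G, Near b c → Solved b c) {a b c : G} (ha : a ≠ 1)
    (hb : NS a b) (hc : NS a c) : ∃ e, NS b e ∧ NS c e := by
  have key : ∀ a b c : G, 1 < a → NS a b → NS a c → ∃ e, NS b e ∧ NS c e := by
    intro a b c ha hb hc
    obtain ⟨b', c', h1, h2, h3⟩ := reduce ha hb hc
    obtain ⟨x, f, e⟩ := hG b' c' h3
    refine ⟨x * b' * x⁻¹ * b', (h1.conj_mem x).mul h1, ?_⟩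
    rw [← e]
    exact ((h2.conj_mem x).mul h2).conj_mem f
  rcases lt_or_gt_of_ne ha with h | h
  · obtain ⟨e, h1, h2⟩ := key a⁻¹ b⁻¹ c⁻¹ (one_lt_inv'.2 h) hb.inv hc.inv
    exact ⟨e⁻¹, by simpa using h1.inv, by simpa using h2.inv⟩
  · exact key a b c h hb hc

theorem NS.ne_one {a x : G} (ha : a ≠ 1) (h : NS a x) : x ≠ 1 := by
  rcases lt_or_gt_of_ne ha with e | e
  · have := h.inv.one_lt (one_lt_inv'.2 e)
    intro e'
    rw [e', inv_one] at this
    exact lt_irrefl _ this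
  · exact (h.one_lt e).ne'

end Pool.Agent.H256Z.OS
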