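import Pool.Agent.H256Z.OS.Lam

/-! Tame automorphisms have a sign; the rearranging map `Phi`. -/

set_option autoImplicit false

namespace Pool.Agent.H256Z.OS

open Set

variable {X : Type} [LinearOrder X] {o : X} {H : Type} [Group H] {ρ : H →* (X ≃o X)}

theorem sign_of_model (hF : ∀ h y y', ρ h y = y → y' ≤ y → ρ h y' = y')
    (hS : ∀ h, (∀ y, ρ h y = y) ∨ ∃ y1, ρ h y1 ≠ y1 ∧
      ((∀ y, y ≤ y1 → y ≤ ρ h y) ∨ (∀ y, y ≤ y1 → ρ h y ≤ y)))
    {g : Lam o ≃o Lam o} {U : Set (Lam o)} (hU : IsLowerSet U) (hfix : ∀ l ∈ U, g l = l)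
    {a b : Lam o} (ha : a ∈ U) (hb : b ∉ U) (hm : Model ρ (Icc a b) g) :
    ∃ w, w ∉ U ∧ ((∀ l, l ≤ w → l ≤ g l) ∨ (∀ l, l ≤ w → g l ≤ l)) := by
  have hab : a ≤ b := by
    by_contra h
    exact hb (hU (not_le.1 h).le ha)
  have haI : a ∈ Icc a b := ⟨le_rfl, hab⟩
  have hga : g a = a := hfix a ha
  obtain ⟨p, q, j, h, h1, h2⟩ := hm
  have h1a := h1 a haI
  rw [hga] at h1a
  rcases lt_trichotomy p q with hc | hc | hc
  · refine ⟨b, hb, Or.inr (fun l hl => ?_)⟩
    rcases le_or_gt l a with hla | hla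
    · exact (hfix l (hU hla ha)).le
    have hlI : l ∈ Icc a b := ⟨hla.le, hl⟩
    obtain ⟨k, hk1, hk2⟩ := Lam.lt_def.1 hla
    have key : ∀ i, i ≤ k → (g l).s i = a.s i := by
      intro i hi
      rcases lt_trichotomy i q with hd | hd | hd
      · rw [(h2 l hlI a haI).2 i hd, hga]
      · subst hd
        rw [(h1 l hlI).1, h1a.1, hk1 p (by omega)]
      · obtain ⟨e, rfl⟩ := Nat.exists_eq_add_of_lt hd
        rw [show q + e + 1 = q + 1 + e by omega, (h1 l hlI).2, h1a.2, hk1 _ (by omega)]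
    refine (Lam.lt_of_at k (fun i hi => ?_) ?_).le
    · rw [key i hi.le, hk1 i hi]
    · rw [key k le_rfl]
      exact hk2
  · subst hc
    have hj : j = 0 := by
      have := congrArg T.n h1a.1
      simp only [act] at this
      omega
    subst hj
    have hy : ρ h (a.s p).y = (a.s p).y := (congrArg T.y h1a.1).symm
    have cmp1 : ∀ l ∈ Icc a b, l.s p ≤ act ρ 0 h (l.s p) → l ≤ g l := by
      intro l hl hle
      by_contra hlt
      obtain ⟨k, hk1, hk2⟩ := Lam.lt_def.1 (not_le.1 hlt)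
      rcases lt_trichotomy k p with hd | hd | hd
      · rw [(h2 l hl a haI).2 k hd, hga, (h2 l hl a haI).1 k hd] at hk2
        exact lt_irrefl _ hk2
      · subst hd
        rw [(h1 l hl).1] at hk2
        exact absurd hk2 (not_lt.2 hle)
      · obtain ⟨e, rfl⟩ := Nat.exists_eq_add_of_lt hd
        rw [show p + e + 1 = p + 1 + e by omega, (h1 l hl).2] at hk2
        exact lt_irrefl _ hk2
    have cmp2 : ∀ l ∈ Icc a b, act ρ 0 h (l.s p) ≤ l.s p → g l ≤ l := by
      intro l hl hle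
      by_contra hlt
      obtain ⟨k, hk1, hk2⟩ := Lam.lt_def.1 (not_le.1 hlt)
      rcases lt_trichotomy k p with hd | hd | hd
      · rw [(h2 l hl a haI).2 k hd, hga, (h2 l hl a haI).1 k hd] at hk2
        exact lt_irrefl _ hk2
      · subst hd
        rw [(h1 l hl).1] at hk2
        exact absurd hk2 (not_lt.2 hle)
      · obtain ⟨e, rfl⟩ := Nat.exists_eq_add_of_lt hd
        rw [show p + e + 1 = p + 1 + e by omega, (h1 l hl).2] at hk2
        exact lt_irrefl _ hk2
    rcases hS h with hall | ⟨y1, hy1, hsg⟩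
    · refine ⟨b, hb, Or.inl (fun l hl => ?_)⟩
      rcases le_or_gt l a with hla | hla
      · exact (hfix l (hU hla ha)).ge
      · refine cmp1 l ⟨hla.le, hl⟩ (le_of_eq ?_)
        unfold act
        ext
        · simp
        · exact (hall _).symm
    · have hyy : (a.s p).y < y1 := by
        by_contra hle
        exact hy1 (hF h _ _ hy (not_lt.1 hle))
      have hlt1 : a.s p < ⟨(a.s p).n, y1⟩ := T.lt_def.2 (Or.inr ⟨rfl, hyy⟩)
      have main : ∃ w, w ∉ U ∧ w ∈ Icc a b ∧ w.s p ≤ ⟨(a.s p).n, y1⟩ := by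
        rcases le_or_gt (b.s p) ⟨(a.s p).n, y1⟩ with hb1 | hb1
        · exact ⟨b, hb, ⟨hab, le_rfl⟩, hb1⟩
        · let w : Lam o := ⟨Function.update a.s p ⟨(a.s p).n, y1⟩, fun i => by
            by_cases hi : i + 1 = p
            · subst hi
              rw [Function.update_self]
              exact ⟨(a.ok i).1.trans hlt1.le, hb1.le.trans (b.ok i).2⟩
            · rw [Function.update_of_ne hi]
              exact a.ok i⟩
          have hwp : w.s p = ⟨(a.s p).n, y1⟩ := Function.update_self _ _ _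
          have hwj : ∀ i, i < p → w.s i = a.s i := fun i hi => Function.update_of_ne hi.ne _ _
          have haw : a < w := Lam.lt_of_at p (fun i hi => (hwj i hi).symm) (by rw [hwp]; exact hlt1)
          have hwb : w < b := Lam.lt_of_at p
            (fun i hi => by rw [hwj i hi]; exact (h2 a haI b ⟨hab, le_rfl⟩).1 i hi)
            (by rw [hwp]; exact hb1)
          refine ⟨w, fun hw => ?_, ⟨haw.le, hwb.le⟩, hwp.le⟩
          have h3 := (h1 w ⟨haw.le, hwb.le⟩).1
          rw [hfix w hw, hwp] at h3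
          exact hy1 (congrArg T.y h3).symm
      obtain ⟨w, hwU, hwI, hwp⟩ := main
      have hrange : ∀ l, a < l → l ≤ w → (l.s p).y ≤ y1 := by
        intro l hla hl
        have hlI : l ∈ Icc a b := ⟨hla.le, hl.trans hwI.2⟩
        have e1 : a.s p ≤ l.s p := Lam.le_at hla.le p (h2 a haI l hlI).1
        have e2 : l.s p ≤ w.s p := Lam.le_at hl p (h2 l hlI w hwI).1
        have e3 := T.le_def.1 e1
        rcases T.le_def.1 (e2.trans hwp) with e4 | e4
        · exfalso
          simp only at e4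
          omega
        · exact e4.2
      refine ⟨w, hwU, ?_⟩
      rcases hsg with hsg | hsg
      · left
        intro l hl
        rcases le_or_gt l a with hla | hla
        · exact (hfix l (hU hla ha)).ge
        · refine cmp1 l ⟨hla.le, hl.trans hwI.2⟩ (T.le_def.2 (Or.inr ⟨by simp [act], ?_⟩))
          exact hsg _ (hrange l hla hl)
      · right
        intro l hl
        rcases le_or_gt l a with hla | hla
        · exact (hfix l (hU hla ha)).le
        · refine cmp2 l ⟨hla.le, hl.trans hwI.2⟩ (T.le_def.2 (Or.inr ⟨by simp [act], ?_⟩))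
          exact hsg _ (hrange l hla hl)
  · refine ⟨b, hb, Or.inl (fun l hl => ?_)⟩
    rcases le_or_gt l a with hla | hla
    · exact (hfix l (hU hla ha)).ge
    have hlI : l ∈ Icc a b := ⟨hla.le, hl⟩
    have hla' : a < g l := by
      have := g.strictMono hla
      rwa [hga] at this
    obtain ⟨k, hk1, hk2⟩ := Lam.lt_def.1 hla'
    have key : ∀ i, i ≤ k → l.s i = a.s i := by
      intro i hi
      rcases lt_trichotomy i p with hd | hd | hd
      · exact (h2 l hlI a haI).1 i hd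
      · subst hd
        apply act_inj ρ j h
        rw [← (h1 l hlI).1, ← h1a.1, hk1 q (by omega)]
      · obtain ⟨e, rfl⟩ := Nat.exists_eq_add_of_lt hd
        rw [show p + e + 1 = p + 1 + e by omega, ← (h1 l hlI).2, ← h1a.2, hk1 _ (by omega)]
    refine (Lam.lt_of_at k (fun i hi => ?_) ?_).le
    · rw [key i hi.le, hk1 i hi]
    · rw [key k le_rfl]
      exact hk2

theorem sh_sign (j : ℤ) :
    (∀ l : Lam o, l ≤ hd o (shT j) l) ∨ (∀ l : Lam o, hd o (shT j) l ≤ l) := by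
  rcases lt_trichotomy j 0 with h | h | h
  · right
    intro l
    refine (Lam.lt_zero ?_).le
    rw [hd_zero, shT_apply, T.lt_def]
    left
    show (l.s 0).n + j < (l.s 0).n
    omega
  · subst h
    left
    intro l
    rw [shT_zero, map_one]
    exact le_rfl
  · left
    intro l
    refine (Lam.lt_zero ?_).le
    rw [hd_zero, shT_apply, T.lt_def]
    left
    show (l.s 0).n < (l.s 0).n + j
    omega

theorem tame_sign (hF : ∀ h y y', ρ h y = y → y' ≤ y → ρ h y' = y')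
    (hS : ∀ h, (∀ y, ρ h y = y) ∨ ∃ y1, ρ h y1 ≠ y1 ∧
      ((∀ y, y ≤ y1 → y ≤ ρ h y) ∨ (∀ y, y ≤ y1 → ρ h y ≤ y)))
    {g : Lam o ≃o Lam o} (hg : g ∈ Tame o ρ) (hne : g ≠ 1) : Pos g ∨ Pos g⁻¹ := by
  let U : Set (Lam o) := {w | ∀ l, l ≤ w → g l = l}
  have hU : IsLowerSet U := fun a b hab ha l hl => ha l (hl.trans hab)
  have hne' : Uᶜ.Nonempty := by
    by_contra h
    apply hne
    refine DFunLike.ext _ _ (fun l => ?_)
    have : l ∈ U := by
      by_contra hl
      exact h ⟨l, hl⟩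
    exact this l le_rfl
  by_cases hemp : U.Nonempty
  · obtain ⟨a, ha, b, hb, hm⟩ := hg.1 U hU hemp hne'
    obtain ⟨w, hw, hs⟩ := sign_of_model hF hS hU (fun l hl => hl l le_rfl) ha hb hm
    exact pos_or_of_sign hw hs
  · obtain ⟨w, j, hw⟩ := hg.2
    refine pos_or_of_sign (w := w) (fun h => hemp ⟨w, h⟩) ?_
    rcases sh_sign (o := o) j with h | h
    · left
      intro l hl
      rw [hw l hl]
      exact h l
    · right
      intro l hl
      rw [hw l hl]
      exact h l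

/-- The rearranging map. -/
noncomputable def Phi0 (l : Lam o) : Lam o :=
  if (l.s 0).y = o then
    Lam.mk' ⟨(l.s 1).n + (2 * (l.s 0).n - 1), (l.s 1).y⟩ (fun i => l.s (i + 2))
      (fun i => l.ok (i + 1))
  else if o < (l.s 0).y then Lam.mk' ⟨2 * (l.s 0).n, (l.s 0).y⟩ (fun i => l.s (i + 1)) l.ok
  else Lam.mk' ⟨2 * (l.s 0).n - 1, (l.s 0).y⟩ (fun i => l.s (i + 1)) l.ok

theorem Phi0_eq {l : Lam o} (h : (l.s 0).y = o) : Phi0 l =
    Lam.mk' ⟨(l.s 1).n + (2 * (l.s 0).n - 1), (l.s 1).y⟩ (fun i => l.s (i + 2))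
      (fun i => l.ok (i + 1)) := by
  unfold Phi0
  rw [if_pos h]

theorem Phi0_gt {l : Lam o} (h : o < (l.s 0).y) : Phi0 l =
    Lam.mk' ⟨2 * (l.s 0).n, (l.s 0).y⟩ (fun i => l.s (i + 1)) l.ok := by
  unfold Phi0
  rw [if_neg h.ne', if_pos h]

theorem Phi0_lt {l : Lam o} (h : (l.s 0).y < o) : Phi0 l =
    Lam.mk' ⟨2 * (l.s 0).n - 1, (l.s 0).y⟩ (fun i => l.s (i + 1)) l.ok := by
  unfold Phi0
  rw [if_neg h.ne, if_neg (not_lt.2 h.le)]

theorem Phi0_head_eq {l : Lam o} (h : (l.s 0).y = o) :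
    (⟨2 * (l.s 0).n - 1, o⟩ : T X) ≤ (Phi0 l).s 0 ∧ (Phi0 l).s 0 ≤ ⟨2 * (l.s 0).n, o⟩ := by
  rw [Phi0_eq h, Lam.mk'_zero]
  obtain ⟨h1, h2⟩ := l.ok 0
  rw [T.le_def] at h1 h2
  simp only [zero_add] at h1 h2
  constructor
  · rw [T.le_def]
    rcases h1 with h1 | h1
    · left; show 2 * (l.s 0).n - 1 < (l.s 1).n + (2 * (l.s 0).n - 1); omega
    · right; exact ⟨by show 2 * (l.s 0).n - 1 = (l.s 1).n + (2 * (l.s 0).n - 1); omega, h1.2⟩
  · rw [T.le_def]
    rcases h2 with h2 | h2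
    · left; show (l.s 1).n + (2 * (l.s 0).n - 1) < 2 * (l.s 0).n; omega
    · right; exact ⟨by show (l.s 1).n + (2 * (l.s 0).n - 1) = 2 * (l.s 0).n; omega, h2.2⟩

theorem Phi0_strictMono : StrictMono (Phi0 (o := o)) := by
  intro l m h
  rw [Lam.lt_def, LL_iff] at h
  rcases h with h | ⟨h0, h⟩
  · apply Lam.lt_zero
    rw [T.lt_def] at h
    rcases lt_trichotomy (l.s 0).y o with hl | hl | hl <;>
      rcases lt_trichotomy (m.s 0).y o with hm | hm | hm
    · rw [Phi0_lt hl, Phi0_lt hm, Lam.mk'_zero, Lam.mk'_zero, T.lt_def]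
      rcases h with h | h
      · left; simp only; omega
      · right; exact ⟨by simp only; omega, h.2⟩
    · refine lt_of_lt_of_le ?_ (Phi0_head_eq hm).1
      rw [Phi0_lt hl, Lam.mk'_zero, T.lt_def]
      rcases h with h | h
      · left; simp only; omega
      · right; exact ⟨by simp only; omega, hl⟩
    · rw [Phi0_lt hl, Phi0_gt hm, Lam.mk'_zero, Lam.mk'_zero, T.lt_def]
      left; simp only; omega
    · refine lt_of_le_of_lt (Phi0_head_eq hl).2 ?_
      rw [Phi0_lt hm, Lam.mk'_zero, T.lt_def]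
      rcases h with h | h
      · left; simp only; omega
      · exact absurd (h.2.trans hm) (by rw [hl]; exact lt_irrefl _)
    · refine lt_of_le_of_lt (Phi0_head_eq hl).2 (lt_of_lt_of_le ?_ (Phi0_head_eq hm).1)
      rw [T.lt_def]
      rcases h with h | h
      · left; simp only; omega
      · exact absurd h.2 (by rw [hl, hm]; exact lt_irrefl _)
    · refine lt_of_le_of_lt (Phi0_head_eq hl).2 ?_
      rw [Phi0_gt hm, Lam.mk'_zero, T.lt_def]
      rcases h with h | h
      · left; simp only; omega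
      · right; exact ⟨by simp only; omega, hm⟩
    · rw [Phi0_gt hl, Phi0_lt hm, Lam.mk'_zero, Lam.mk'_zero, T.lt_def]
      rcases h with h | h
      · left; simp only; omega
      · exact absurd (hl.trans (h.2.trans hm)) (lt_irrefl _)
    · refine lt_of_lt_of_le ?_ (Phi0_head_eq hm).1
      rw [Phi0_gt hl, Lam.mk'_zero, T.lt_def]
      rcases h with h | h
      · left; simp only; omega
      · exact absurd (hl.trans h.2) (by rw [hm]; exact lt_irrefl _)
    · rw [Phi0_gt hl, Phi0_gt hm, Lam.mk'_zero, Lam.mk'_zero, T.lt_def]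
      rcases h with h | h
      · left; simp only; omega
      · right; exact ⟨by simp only; omega, h.2⟩
  · rcases lt_trichotomy (l.s 0).y o with hl | hl | hl
    · rw [Phi0_lt hl, Phi0_lt (h0 ▸ hl), Lam.lt_def, LL_iff]
      right
      exact ⟨by rw [Lam.mk'_zero, Lam.mk'_zero, h0], h⟩
    · rw [Phi0_eq hl, Phi0_eq (h0 ▸ hl), Lam.lt_def, LL_iff]
      rw [LL_iff] at h
      rcases h with h | ⟨h1, h⟩
      · left
        rw [Lam.mk'_zero, Lam.mk'_zero, h0]
        simp only [zero_add] at h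
        rw [T.lt_def] at h ⊢
        rcases h with h | h
        · left; simp only; omega
        · right; exact ⟨by simp only; omega, h.2⟩
      · right
        simp only [zero_add] at h1
        exact ⟨by rw [Lam.mk'_zero, Lam.mk'_zero, h0, h1], h⟩
    · rw [Phi0_gt hl, Phi0_gt (h0 ▸ hl), Lam.lt_def, LL_iff]
      right
      exact ⟨by rw [Lam.mk'_zero, Lam.mk'_zero, h0], h⟩

theorem mk'_eta (m : Lam o) {a : T X} (h : a = m.s 0) :
    Lam.mk' a (fun i => m.s (i + 1)) m.ok = m := by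
  ext1
  funext i
  cases i with
  | zero => exact h
  | succ i => rfl

theorem Phi0_surj : Function.Surjective (Phi0 (o := o)) := by
  intro m
  by_cases h : ∃ n : ℤ, (⟨2 * n - 1, o⟩ : T X) ≤ m.s 0 ∧ m.s 0 ≤ ⟨2 * n, o⟩
  · obtain ⟨n, h1, h2⟩ := h
    have hok : ∀ i, (⟨0, o⟩ : T X) ≤
        cons ⟨(m.s 0).n - (2 * n - 1), (m.s 0).y⟩ (fun i => m.s (i + 1)) i ∧
        cons ⟨(m.s 0).n - (2 * n - 1), (m.s 0).y⟩ (fun i => m.s (i + 1)) i ≤ ⟨1, o⟩ := by
      intro i
      cases i with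
      | zero =>
        show (⟨0, o⟩ : T X) ≤ ⟨(m.s 0).n - (2 * n - 1), (m.s 0).y⟩ ∧
          (⟨(m.s 0).n - (2 * n - 1), (m.s 0).y⟩ : T X) ≤ ⟨1, o⟩
        rw [T.le_def] at h1 h2
        simp only at h1 h2
        constructor
        · rw [T.le_def]
          rcases h1 with h1 | h1
          · left; simp only; omega
          · right; exact ⟨by simp only; omega, h1.2⟩
        · rw [T.le_def]
          rcases h2 with h2 | h2
          · left; simp only; omega
          · right; exact ⟨by simp only; omega, h2.2⟩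
      | succ i => exact m.ok i
    refine ⟨Lam.mk' ⟨n, o⟩ _ hok, ?_⟩
    rw [Phi0_eq rfl]
    refine mk'_eta m ?_
    show (⟨(m.s 0).n - (2 * n - 1) + (2 * n - 1), (m.s 0).y⟩ : T X) = _
    ext
    · simp
    · rfl
  · push Not at h
    obtain ⟨k, hk⟩ : ∃ k : ℤ, (m.s 0).n = 2 * k ∨ (m.s 0).n = 2 * k - 1 :=
      ⟨((m.s 0).n + 1) / 2, by omega⟩
    have h1 := h k
    rcases hk with hk | hk
    · have h2 := T.lt_def.1 (h1 (T.le_def.2 (Or.inl (by simp only; omega))))
      simp only at h2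
      have h3 : o < (m.s 0).y := by
        rcases h2 with h2 | h2
        · omega
        · exact h2.2
      refine ⟨Lam.mk' ⟨k, (m.s 0).y⟩ (fun i => m.s (i + 1)) m.ok, ?_⟩
      rw [Phi0_gt (l := Lam.mk' ⟨k, (m.s 0).y⟩ (fun i => m.s (i + 1)) m.ok) h3]
      refine mk'_eta m ?_
      ext
      · exact hk.symm
      · rfl
    · have h3 : (m.s 0).y < o := by
        by_contra h4
        have h2 := T.lt_def.1 (h1 (T.le_def.2 (Or.inr ⟨hk.symm, not_lt.1 h4⟩)))
        simp only at h2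
        omega
      refine ⟨Lam.mk' ⟨k, (m.s 0).y⟩ (fun i => m.s (i + 1)) m.ok, ?_⟩
      rw [Phi0_lt (l := Lam.mk' ⟨k, (m.s 0).y⟩ (fun i => m.s (i + 1)) m.ok) h3]
      refine mk'_eta m ?_
      ext
      · exact hk.symm
      · rfl

/-- The rearranging map as an order automorphism. -/
noncomputable def Phi (o : X) : Lam o ≃o Lam o :=
  Phi0_strictMono.orderIsoOfSurjective Phi0 Phi0_surj

theorem Phi_apply (l : Lam o) : Phi o l = Phi0 l := rfl

theorem Phi_lo (n : ℤ) : Phi o (lo o ⟨n, o⟩) = lo o ⟨2 * n - 1, o⟩ := by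
  rw [Phi_apply, Phi0_eq rfl]
  ext1
  funext i
  cases i with
  | zero =>
    show (⟨0 + (2 * n - 1), o⟩ : T X) = ⟨2 * n - 1, o⟩
    rw [zero_add]
  | succ i => rfl

theorem Phi_hi (n : ℤ) : Phi o (hi o ⟨n, o⟩) = hi o ⟨2 * n, o⟩ := by
  rw [Phi_apply, Phi0_eq rfl]
  ext1
  funext i
  cases i with
  | zero =>
    show (⟨1 + (2 * n - 1), o⟩ : T X) = ⟨2 * n, o⟩
    congr 1
    omega
  | succ i => rfl

theorem Phi_lo_gt (n : ℤ) {y : X} (hy : o < y) : Phi o (lo o ⟨n, y⟩) = lo o ⟨2 * n, y⟩ := by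
  rw [Phi_apply, Phi0_gt hy]
  rfl

theorem Phi_hi_gt (n : ℤ) {y : X} (hy : o < y) : Phi o (hi o ⟨n, y⟩) = hi o ⟨2 * n, y⟩ := by
  rw [Phi_apply, Phi0_gt hy]
  rfl

theorem loc_Phi : Loc ρ ⇑(Phi o) := by
  rintro U hU ⟨x, hx⟩ ⟨y, hy⟩
  obtain ⟨n, hn, hmax⟩ := Int.exists_greatest_of_bdd (P := fun n : ℤ => lo o ⟨n, o⟩ ∈ U)
    ⟨(y.s 0).n, fun z hz => by
      by_contra hlt
      refine hy (hU (Lam.lt_zero ?_).le hz)
      exact T.lt_def.2 (Or.inl (not_le.1 hlt))⟩
    ⟨(x.s 0).n - 1, hU (lo_le (T.le_def.2 (Or.inl (by simp only; omega)))) hx⟩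
  have hn1 : lo o ⟨n + 1, o⟩ ∉ U := fun h => by
    have := hmax _ h
    omega
  by_cases hh : hi o ⟨n, o⟩ ∈ U
  · refine ⟨_, hh, _, hn1, 0, 0, n, 1, fun l hl => ?_, fun l _ m _ =>
      ⟨fun i hi => absurd hi (Nat.not_lt_zero i), fun i hi => absurd hi (Nat.not_lt_zero i)⟩⟩
    have e1 : (⟨n, o⟩ : T X) ≤ l.s 0 := Lam.le_zero hl.1
    have e2 : l.s 0 ≤ (⟨n + 1, o⟩ : T X) := Lam.le_zero hl.2
    rcases e1.eq_or_lt with e1 | e1
    · have hl' : l = hi o ⟨n, o⟩ := le_antisymm (le_hi e1.ge) hl.1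
      rw [hl', Phi_hi]
      refine ⟨?_, fun i => ?_⟩
      · show (⟨2 * n, o⟩ : T X) = ⟨n + n, ρ 1 o⟩
        rw [map_one, two_mul]
        rfl
      · rw [show 0 + 1 + i = i + 1 by omega]
        rfl
    rcases e2.eq_or_lt with e2 | e2
    · have hl' : l = lo o ⟨n + 1, o⟩ := le_antisymm hl.2 (lo_le e2.ge)
      rw [hl', Phi_lo]
      refine ⟨?_, fun i => ?_⟩
      · show (⟨2 * (n + 1) - 1, o⟩ : T X) = ⟨n + 1 + n, ρ 1 o⟩
        rw [map_one, show 2 * (n + 1) - 1 = n + 1 + n by ring]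
        rfl
      · rw [show 0 + 1 + i = i + 1 by omega]
        rfl
    rw [T.lt_def] at e1 e2
    simp only at e1 e2
    rcases lt_trichotomy (l.s 0).y o with hc | hc | hc
    · rw [Phi_apply, Phi0_lt hc]
      refine ⟨?_, fun i => ?_⟩
      · have : (l.s 0).n = n + 1 := by
          rcases e1 with e1 | e1
          · omega
          · exact absurd (e1.2.trans hc) (lt_irrefl _)
        show (⟨2 * (l.s 0).n - 1, (l.s 0).y⟩ : T X) = ⟨(l.s 0).n + n, ρ 1 (l.s 0).y⟩
        rw [map_one, show 2 * (l.s 0).n - 1 = (l.s 0).n + n by omega]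
        rfl
      · rw [show 0 + 1 + i = i + 1 by omega]
        rfl
    · exfalso
      rw [hc] at e1 e2
      simp only [lt_irrefl, and_false, or_false] at e1 e2
      omega
    · rw [Phi_apply, Phi0_gt hc]
      refine ⟨?_, fun i => ?_⟩
      · have : (l.s 0).n = n := by
          rcases e2 with e2 | e2
          · omega
          · exact absurd (e2.2.trans hc) (lt_irrefl _)
        show (⟨2 * (l.s 0).n, (l.s 0).y⟩ : T X) = ⟨(l.s 0).n + n, ρ 1 (l.s 0).y⟩
        rw [map_one, show 2 * (l.s 0).n = (l.s 0).n + n by omega]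
        rfl
      · rw [show 0 + 1 + i = i + 1 by omega]
        rfl
  · have hhead : ∀ l ∈ Icc (lo o ⟨n, o⟩) (hi o ⟨n, o⟩), l.s 0 = ⟨n, o⟩ := fun l hl =>
      le_antisymm (Lam.le_zero hl.2) (Lam.le_zero hl.1)
    refine ⟨_, hn, _, hh, 1, 0, 2 * n - 1, 1, fun l hl => ?_, fun l hl m hm =>
      ⟨fun i hi => ?_, fun i hi => absurd hi (Nat.not_lt_zero i)⟩⟩
    · have e := hhead l hl
      rw [Phi_apply, Phi0_eq (by rw [e])]
      refine ⟨?_, fun i => ?_⟩
      · show (⟨(l.s 1).n + (2 * (l.s 0).n - 1), (l.s 1).y⟩ : T X) =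
          ⟨(l.s 1).n + (2 * n - 1), ρ 1 (l.s 1).y⟩
        rw [map_one, e]
        rfl
      · rw [show 0 + 1 + i = i + 1 by omega, show 1 + 1 + i = i + 2 by omega]
        rfl
    · obtain rfl : i = 0 := by omega
      rw [hhead l hl, hhead m hm]

end Pool.Agent.H256Z.OS
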