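import Mathlib

/-! The chain of sequences and its tame automorphisms. -/

set_option autoImplicit false

namespace Pool.Agent.H256Z.OS

open Set

/-- Positive order automorphisms: positive germ at the left end of the support. -/
def Pos {α : Type*} [LinearOrder α] (g : α ≃o α) : Prop :=
  ∃ w, w < g w ∧ ∀ l, l ≤ w → l ≤ g l

section PosLemmas
variable {α : Type*} [LinearOrder α]

theorem Pos.mul {f g : α ≃o α} (hf : Pos f) (hg : Pos g) : Pos (f * g) := by
  obtain ⟨a, ha, ha'⟩ := hf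
  obtain ⟨b, hb, hb'⟩ := hg
  have key : ∀ l, l ≤ a → l ≤ b → l ≤ f (g l) := fun l h1 h2 =>
    (ha' l h1).trans (f.monotone (hb' l h2))
  rcases le_total a b with h | h
  · refine ⟨a, ?_, fun l hl => key l hl (hl.trans h)⟩
    exact ha.trans_le (f.monotone (hb' a h))
  · refine ⟨b, ?_, fun l hl => key l (hl.trans h) hl⟩
    exact (ha' b h).trans_lt (f.strictMono hb)

theorem Pos.conj {g : α ≃o α} (hg : Pos g) (f : α ≃o α) : Pos (f * g * f⁻¹) := by
  obtain ⟨b, hb, hb'⟩ := hg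
  refine ⟨f b, ?_, fun l hl => ?_⟩
  · show f b < f (g (f.symm (f b)))
    rw [f.symm_apply_apply]
    exact f.strictMono hb
  · show l ≤ f (g (f.symm l))
    have h1 : f.symm l ≤ b := by
      have := f.symm.monotone hl
      rwa [f.symm_apply_apply] at this
    have := f.monotone (hb' _ h1)
    rwa [f.apply_symm_apply] at this

theorem not_pos_one : ¬ Pos (1 : α ≃o α) := by
  rintro ⟨a, ha, -⟩
  exact lt_irrefl _ ha

theorem pos_inv_of {g : α ≃o α} {w : α} (h1 : g w < w) (h2 : ∀ l, l ≤ w → g l ≤ l) :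
    Pos g⁻¹ := by
  refine ⟨g w, ?_, fun l hl => ?_⟩
  · show g w < g.symm (g w)
    rwa [g.symm_apply_apply]
  · show l ≤ g.symm l
    have h3 : g.symm l ≤ w := by
      have := g.symm.monotone hl
      rwa [g.symm_apply_apply] at this
    have := h2 _ h3
    rwa [g.apply_symm_apply] at this

/-- A weak sign on an initial segment that is not fixed pointwise gives a sign. -/
theorem pos_or_of_sign {g : α ≃o α} {w : α} (hw : ¬ ∀ l, l ≤ w → g l = l)
    (h : (∀ l, l ≤ w → l ≤ g l) ∨ (∀ l, l ≤ w → g l ≤ l)) : Pos g ∨ Pos g⁻¹ := by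
  push Not at hw
  obtain ⟨v, hv, hv'⟩ := hw
  rcases h with h | h
  · left
    exact ⟨v, lt_of_le_of_ne (h v hv) (Ne.symm hv'), fun l hl => h l (hl.trans hv)⟩
  · right
    exact pos_inv_of (lt_of_le_of_ne (h v hv) hv') (fun l hl => h l (hl.trans hv))

/-- Two automorphisms which agree up to a point with cofinal orbits are conjugate. -/
theorem exists_conj (B C : α ≃o α) (r : α) (hBC : ∀ l, l ≤ r → B l = C l) (hr : r ≤ C r)
    (hC : ∀ l, ∃ n : ℕ, l ≤ (C ^ n) r) (hB : ∀ l, ∃ n : ℕ, l ≤ (B ^ n) r) :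
    ∃ f : α ≃o α, f * C * f⁻¹ = B ∧
      ∀ l, ∃ n : ℕ, ∀ m, m ≤ l → f m = (B ^ n * (C ^ n)⁻¹) m := by
  have hmono : ∀ n : ℕ, (C ^ n) r ≤ (C ^ (n + 1)) r := by
    intro n
    rw [pow_succ]
    exact (C ^ n).monotone hr
  have hmono' : Monotone (fun n : ℕ => (C ^ n) r) := monotone_nat_of_le_succ hmono
  have step : ∀ (n : ℕ) l, l ≤ (C ^ n) r →
      (B ^ (n + 1) * (C ^ (n + 1))⁻¹) l = (B ^ n * (C ^ n)⁻¹) l := by
    intro n l hl
    have h1 : (C ^ n).symm l ≤ r := by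
      have := (C ^ n).symm.monotone hl
      rwa [OrderIso.symm_apply_apply] at this
    have h2 : C.symm ((C ^ n).symm l) ≤ r := by
      have := C.symm.monotone (h1.trans hr)
      rwa [OrderIso.symm_apply_apply] at this
    have h3 := hBC _ h2
    rw [OrderIso.apply_symm_apply] at h3
    rw [pow_succ B, pow_succ C, mul_inv_rev]
    show (B ^ n) (B (C.symm ((C ^ n).symm l))) = (B ^ n) ((C ^ n).symm l)
    rw [h3]
  have stab : ∀ (n k : ℕ) l, l ≤ (C ^ n) r → n ≤ k →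
      (B ^ k * (C ^ k)⁻¹) l = (B ^ n * (C ^ n)⁻¹) l := by
    intro n k l hl hk
    induction k, hk using Nat.le_induction with
    | base => rfl
    | succ k hk ih => rw [step k l (hl.trans (hmono' hk)), ih]
  choose N hN using hC
  let f0 : α → α := fun l => (B ^ (N l) * (C ^ (N l))⁻¹) l
  have hf0 : ∀ (n : ℕ) l, l ≤ (C ^ n) r → f0 l = (B ^ n * (C ^ n)⁻¹) l := by
    intro n l hl
    show (B ^ (N l) * (C ^ (N l))⁻¹) l = _
    rw [← stab (N l) (max n (N l)) l (hN l) (le_max_right _ _),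
      stab n (max n (N l)) l hl (le_max_left _ _)]
  have hsm : StrictMono f0 := by
    intro a b hab
    rw [hf0 (N b) a (hab.le.trans (hN b)), hf0 (N b) b (hN b)]
    exact (B ^ (N b) * (C ^ (N b))⁻¹).strictMono hab
  have hsu : Function.Surjective f0 := by
    intro m
    obtain ⟨n, hn⟩ := hB m
    have h1 : (B ^ n).symm m ≤ r := by
      have := (B ^ n).symm.monotone hn
      rwa [OrderIso.symm_apply_apply] at this
    refine ⟨(C ^ n) ((B ^ n).symm m), ?_⟩
    rw [hf0 n _ ((C ^ n).monotone h1)]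
    show (B ^ n) ((C ^ n).symm ((C ^ n) ((B ^ n).symm m))) = m
    rw [OrderIso.symm_apply_apply, OrderIso.apply_symm_apply]
  refine ⟨hsm.orderIsoOfSurjective f0 hsu, ?_, fun l => ⟨N l, fun m hm => ?_⟩⟩
  · rw [mul_inv_eq_iff_eq_mul]
    ext l
    show f0 (C l) = B (f0 l)
    have h1 : C l ≤ (C ^ (N l + 1)) r := by
      rw [pow_succ']
      exact C.monotone (hN l)
    rw [hf0 _ _ h1, hf0 _ _ (hN l), pow_succ' B, pow_succ' C, mul_inv_rev]
    show B ((B ^ N l) ((C ^ N l).symm (C.symm (C l)))) = B ((B ^ N l) ((C ^ N l).symm l))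
    rw [OrderIso.symm_apply_apply]
  · exact hf0 _ _ (hm.trans (hN l))

end PosLemmas

/-- Letters: an integer and a point of the chain `X`. -/
@[ext] structure T (X : Type) where
  n : ℤ
  y : X

variable {X : Type} [LinearOrder X]

noncomputable instance : LinearOrder (T X) :=
  LinearOrder.lift' (fun a : T X => toLex (a.n, a.y)) (by
    intro a b h
    have h' : (a.n, a.y) = (b.n, b.y) := h
    exact T.ext (congrArg Prod.fst h') (congrArg Prod.snd h'))

theorem T.lt_def {a b : T X} : a < b ↔ a.n < b.n ∨ (a.n = b.n ∧ a.y < b.y) := by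
  show toLex (a.n, a.y) < toLex (b.n, b.y) ↔ _
  exact Prod.Lex.toLex_lt_toLex

theorem T.le_def {a b : T X} : a ≤ b ↔ a.n < b.n ∨ (a.n = b.n ∧ a.y ≤ b.y) := by
  show toLex (a.n, a.y) ≤ toLex (b.n, b.y) ↔ _
  exact Prod.Lex.toLex_le_toLex

/-- Lexicographic comparison of sequences. -/
def LL (f g : ℕ → T X) : Prop := ∃ i, (∀ j, j < i → f j = g j) ∧ f i < g i

theorem LL_iff {f g : ℕ → T X} :
    LL f g ↔ f 0 < g 0 ∨ (f 0 = g 0 ∧ LL (fun i => f (i + 1)) (fun i => g (i + 1))) := by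
  constructor
  · rintro ⟨i, h1, h2⟩
    cases i with
    | zero => exact Or.inl h2
    | succ i =>
      exact Or.inr ⟨h1 0 (Nat.succ_pos i), i, fun j hj => h1 (j + 1) (by omega), h2⟩
  · rintro (h | ⟨h0, i, h1, h2⟩)
    · exact ⟨0, fun j hj => absurd hj (Nat.not_lt_zero j), h⟩
    · refine ⟨i + 1, fun j hj => ?_, h2⟩
      cases j with
      | zero => exact h0
      | succ j => exact h1 j (by omega)

/-- The chain: sequences of letters, all but the first between `⟨0, o⟩` and `⟨1, o⟩`. -/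
@[ext] structure Lam (o : X) where
  s : ℕ → T X
  ok : ∀ i, (⟨0, o⟩ : T X) ≤ s (i + 1) ∧ s (i + 1) ≤ ⟨1, o⟩

variable {o : X}

noncomputable instance : LinearOrder (Lam o) :=
  LinearOrder.lift' (fun l : Lam o => toLex l.s) (by
    intro a b h
    exact Lam.ext h)

theorem Lam.lt_def {l m : Lam o} : l < m ↔ LL l.s m.s := Iff.rfl

theorem Lam.lt_of_at {l m : Lam o} (p : ℕ) (h1 : ∀ j, j < p → l.s j = m.s j)
    (h2 : l.s p < m.s p) : l < m := ⟨p, h1, h2⟩

theorem Lam.le_at {l m : Lam o} (h : l ≤ m) (p : ℕ) (h1 : ∀ j, j < p → l.s j = m.s j) :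
    l.s p ≤ m.s p := by
  by_contra h2
  exact absurd (Lam.lt_of_at p (fun j hj => (h1 j hj).symm) (not_le.1 h2)) (not_lt.2 h)

theorem Lam.le_zero {l m : Lam o} (h : l ≤ m) : l.s 0 ≤ m.s 0 :=
  Lam.le_at h 0 (fun j hj => absurd hj (Nat.not_lt_zero j))

theorem Lam.lt_zero {l m : Lam o} (h : l.s 0 < m.s 0) : l < m :=
  Lam.lt_of_at 0 (fun j hj => absurd hj (Nat.not_lt_zero j)) h

/-- Prepending a letter. -/
def cons (a : T X) (f : ℕ → T X) : ℕ → T X
  | 0 => a
  | k + 1 => f k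

/-- The element with given head and tail. -/
def Lam.mk' (a : T X) (f : ℕ → T X) (hf : ∀ i, (⟨0, o⟩ : T X) ≤ f i ∧ f i ≤ ⟨1, o⟩) : Lam o :=
  ⟨cons a f, hf⟩

@[simp] theorem Lam.mk'_zero (a : T X) (f : ℕ → T X)
    (hf : ∀ i, (⟨0, o⟩ : T X) ≤ f i ∧ f i ≤ ⟨1, o⟩) : (Lam.mk' a f hf).s 0 = a := rfl

@[simp] theorem Lam.mk'_succ (a : T X) (f : ℕ → T X)
    (hf : ∀ i, (⟨0, o⟩ : T X) ≤ f i ∧ f i ≤ ⟨1, o⟩) (k : ℕ) :
    (Lam.mk' a f hf).s (k + 1) = f k := rfl

theorem o01 : (⟨0, o⟩ : T X) ≤ ⟨1, o⟩ := T.le_def.2 (Or.inl (by norm_num))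

/-- The least element with head `a`. -/
def lo (o : X) (a : T X) : Lam o := Lam.mk' a (fun _ => ⟨0, o⟩) (fun _ => ⟨le_rfl, o01⟩)

/-- The greatest element with head `a`. -/
def hi (o : X) (a : T X) : Lam o := Lam.mk' a (fun _ => ⟨1, o⟩) (fun _ => ⟨o01, le_rfl⟩)

theorem le_hi {l : Lam o} {a : T X} (h : l.s 0 ≤ a) : l ≤ hi o a := by
  by_contra h2
  obtain ⟨i, -, h4⟩ := Lam.lt_def.1 (not_le.1 h2)
  cases i with
  | zero => exact absurd h4 (not_lt.2 h)
  | succ i => exact absurd h4 (not_lt.2 (l.ok i).2)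

theorem lo_le {l : Lam o} {a : T X} (h : a ≤ l.s 0) : lo o a ≤ l := by
  by_contra h2
  obtain ⟨i, -, h4⟩ := Lam.lt_def.1 (not_le.1 h2)
  cases i with
  | zero => exact absurd h4 (not_lt.2 h)
  | succ i => exact absurd h4 (not_lt.2 (l.ok i).1)

/-- Changing the head. -/
def hd0 (τ : T X → T X) (l : Lam o) : Lam o := Lam.mk' (τ (l.s 0)) (fun i => l.s (i + 1)) l.ok

theorem hd0_strictMono {τ : T X → T X} (hτ : StrictMono τ) : StrictMono (hd0 (o := o) τ) := by
  intro l m h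
  rw [Lam.lt_def, LL_iff] at h ⊢
  rcases h with h | ⟨h0, h⟩
  · exact Or.inl (hτ h)
  · exact Or.inr ⟨congrArg τ h0, h⟩

theorem hd0_comp (τ σ : T X → T X) (l : Lam o) : hd0 τ (hd0 σ l) = hd0 (τ ∘ σ) l := rfl

theorem hd0_id {τ : T X → T X} {l : Lam o} (h : τ (l.s 0) = l.s 0) : hd0 τ l = l := by
  ext1
  funext i
  cases i with
  | zero => exact h
  | succ i => rfl

/-- Changing the head by an automorphism of the letters. -/
noncomputable def hd (o : X) : (T X ≃o T X) →* (Lam o ≃o Lam o) where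
  toFun τ := (hd0_strictMono τ.strictMono).orderIsoOfSurjective (hd0 τ) (fun l =>
    ⟨hd0 τ.symm l, by rw [hd0_comp]; exact hd0_id (τ.apply_symm_apply _)⟩)
  map_one' := by
    refine DFunLike.ext _ _ (fun l => ?_)
    exact hd0_id rfl
  map_mul' τ σ := by
    refine DFunLike.ext _ _ (fun l => ?_)
    rfl

theorem hd_apply (τ : T X ≃o T X) (l : Lam o) : hd o τ l = hd0 τ l := rfl

@[simp] theorem hd_zero (τ : T X ≃o T X) (l : Lam o) : (hd o τ l).s 0 = τ (l.s 0) := rfl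

@[simp] theorem hd_succ (τ : T X ≃o T X) (l : Lam o) (k : ℕ) :
    (hd o τ l).s (k + 1) = l.s (k + 1) := rfl

variable {H : Type} [Group H] (ρ : H →* (X ≃o X))

/-- The action of `ℤ × H` on letters. -/
def act (j : ℤ) (h : H) (a : T X) : T X := ⟨a.n + j, ρ h a.y⟩

theorem act_act (j j' : ℤ) (h h' : H) (a : T X) :
    act ρ j h (act ρ j' h' a) = act ρ (j' + j) (h * h') a := by
  unfold act
  ext
  · simp [add_assoc]
  · simp

theorem act_zero (a : T X) : act ρ 0 1 a = a := by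
  unfold act
  ext <;> simp

theorem act_inv (j : ℤ) (h : H) (a : T X) : act ρ (-j) h⁻¹ (act ρ j h a) = a := by
  rw [act_act, add_neg_cancel, inv_mul_cancel, act_zero]

theorem act_inj (j : ℤ) (h : H) {a b : T X} (e : act ρ j h a = act ρ j h b) : a = b := by
  rw [← act_inv ρ j h a, e, act_inv]

/-- `g` is a model map on `S`. -/
def Model (S : Set (Lam o)) (g : Lam o → Lam o) : Prop :=
  ∃ (p q : ℕ) (j : ℤ) (h : H),
    (∀ l ∈ S, (g l).s q = act ρ j h (l.s p) ∧ ∀ i, (g l).s (q + 1 + i) = l.s (p + 1 + i)) ∧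
    ∀ l ∈ S, ∀ m ∈ S, (∀ i, i < p → l.s i = m.s i) ∧ ∀ i, i < q → (g l).s i = (g m).s i

variable {ρ}

theorem Model.mono {S S' : Set (Lam o)} {g : Lam o → Lam o} (h : Model ρ S g) (hS : S' ⊆ S) :
    Model ρ S' g := by
  obtain ⟨p, q, j, k, h1, h2⟩ := h
  exact ⟨p, q, j, k, fun l hl => h1 l (hS hl), fun l hl m hm => h2 l (hS hl) m (hS hm)⟩

theorem Model.congr {S : Set (Lam o)} {g g' : Lam o → Lam o} (h : Model ρ S g)
    (hS : ∀ l ∈ S, g' l = g l) : Model ρ S g' := by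
  obtain ⟨p, q, j, k, h1, h2⟩ := h
  refine ⟨p, q, j, k, fun l hl => ?_, fun l hl m hm => ?_⟩
  · rw [hS l hl]; exact h1 l hl
  · rw [hS l hl, hS m hm]; exact h2 l hl m hm

theorem Model.inv {S S' : Set (Lam o)} {g g' : Lam o → Lam o} (h : Model ρ S g)
    (hS : ∀ l ∈ S', g' l ∈ S ∧ g (g' l) = l) : Model ρ S' g' := by
  obtain ⟨p, q, j, k, h1, h2⟩ := h
  refine ⟨q, p, -j, k⁻¹, fun l hl => ?_, fun l hl m hm => ?_⟩
  · obtain ⟨h3, h4⟩ := h1 _ (hS l hl).1
    rw [(hS l hl).2] at h3 h4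
    exact ⟨by rw [h3, act_inv], fun i => (h4 i).symm⟩
  · obtain ⟨h3, h4⟩ := h2 _ (hS l hl).1 _ (hS m hm).1
    rw [(hS l hl).2, (hS m hm).2] at h4
    exact ⟨h4, h3⟩

theorem Model.comp {S S' : Set (Lam o)} {g g' : Lam o → Lam o} (h : Model ρ S g)
    (h' : Model ρ S' g') (hS : ∀ l ∈ S, g l ∈ S') : Model ρ S (fun l => g' (g l)) := by
  obtain ⟨p, q, j, k, h1, h2⟩ := h
  obtain ⟨p', q', j', k', h1', h2'⟩ := h'
  rcases lt_trichotomy p' q with hc | hc | hc
  · obtain ⟨d, rfl⟩ := Nat.exists_eq_add_of_lt hc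
    refine ⟨p, q' + 1 + d, j, k, fun l hl => ⟨?_, fun i => ?_⟩, fun l hl m hm => ⟨(h2 l hl m hm).1, fun i hi => ?_⟩⟩
    · rw [(h1' _ (hS l hl)).2 d, ← (h1 l hl).1]
      congr 1
      omega
    · rw [show q' + 1 + d + 1 + i = q' + 1 + (d + 1 + i) by omega, (h1' _ (hS l hl)).2,
        ← (h1 l hl).2 i]
      congr 1
      omega
    · rcases lt_trichotomy i q' with hd | hd | hd
      · exact (h2' _ (hS l hl) _ (hS m hm)).2 i hd
      · subst hd
        show (g' (g l)).s i = (g' (g m)).s i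
        rw [(h1' _ (hS l hl)).1, (h1' _ (hS m hm)).1, (h2 l hl m hm).2 p' (by omega)]
      · obtain ⟨e, rfl⟩ := Nat.exists_eq_add_of_lt hd
        show (g' (g l)).s (q' + e + 1) = (g' (g m)).s (q' + e + 1)
        rw [show q' + e + 1 = q' + 1 + e by omega, (h1' _ (hS l hl)).2, (h1' _ (hS m hm)).2]
        exact (h2 l hl m hm).2 _ (by omega)
  · subst hc
    refine ⟨p, q', j + j', k' * k, fun l hl => ⟨?_, fun i => ?_⟩,
      fun l hl m hm => ⟨(h2 l hl m hm).1, (h2' _ (hS l hl) _ (hS m hm)).2⟩⟩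
    · show (g' (g l)).s q' = _
      rw [(h1' _ (hS l hl)).1, (h1 l hl).1, act_act]
    · show (g' (g l)).s (q' + 1 + i) = _
      rw [(h1' _ (hS l hl)).2, (h1 l hl).2]
  · obtain ⟨d, rfl⟩ := Nat.exists_eq_add_of_lt hc
    refine ⟨p + 1 + d, q', j', k', fun l hl => ⟨?_, fun i => ?_⟩,
      fun l hl m hm => ⟨fun i hi => ?_, (h2' _ (hS l hl) _ (hS m hm)).2⟩⟩
    · show (g' (g l)).s q' = _
      rw [(h1' _ (hS l hl)).1, ← (h1 l hl).2 d]
      congr 2
      omega
    · show (g' (g l)).s (q' + 1 + i) = _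
      rw [(h1' _ (hS l hl)).2, show p + 1 + d + 1 + i = p + 1 + (d + 1 + i) by omega,
        ← (h1 l hl).2]
      congr 1
      omega
    · rcases lt_trichotomy i p with hd | hd | hd
      · exact (h2 l hl m hm).1 i hd
      · subst hd
        apply act_inj ρ j k
        rw [← (h1 l hl).1, ← (h1 m hm).1]
        exact (h2' _ (hS l hl) _ (hS m hm)).1 q (by omega)
      · obtain ⟨e, rfl⟩ := Nat.exists_eq_add_of_lt hd
        rw [show p + e + 1 = p + 1 + e by omega, ← (h1 l hl).2, ← (h1 m hm).2]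
        exact (h2' _ (hS l hl) _ (hS m hm)).1 _ (by omega)

variable (ρ)

/-- `g` is a model map near every proper cut. -/
def Loc (g : Lam o → Lam o) : Prop :=
  ∀ U : Set (Lam o), IsLowerSet U → U.Nonempty → Uᶜ.Nonempty →
    ∃ a ∈ U, ∃ b, b ∉ U ∧ Model ρ (Icc a b) g

variable {ρ}

theorem Loc.mul {f g : Lam o ≃o Lam o} (hf : Loc ρ f) (hg : Loc ρ g) : Loc ρ ⇑(f * g) := by
  intro U hU hne hne'
  obtain ⟨a, ha, b, hb, hm⟩ := hg U hU hne hne'
  obtain ⟨a', ha', b', hb', hm'⟩ := hf (g.symm ⁻¹' U) (hU.preimage g.symm.monotone)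
    ⟨g a, by simpa using ha⟩ ⟨g b, by simpa using hb⟩
  refine ⟨max a (g.symm a'), ?_, min b (g.symm b'), ?_, ?_⟩
  · rcases max_choice a (g.symm a') with h | h <;> rw [h]
    · exact ha
    · exact ha'
  · rcases min_choice b (g.symm b') with h | h <;> rw [h]
    · exact hb
    · exact hb'
  · refine (hm.mono (Icc_subset_Icc (le_max_left _ _) (min_le_left _ _))).comp hm' ?_
    intro l hl
    constructor
    · have := g.monotone ((le_max_right _ _).trans hl.1)
      rwa [g.apply_symm_apply] at this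
    · have := g.monotone (hl.2.trans (min_le_right _ _))
      rwa [g.apply_symm_apply] at this

theorem Loc.inv {g : Lam o ≃o Lam o} (hg : Loc ρ g) : Loc ρ ⇑(g⁻¹) := by
  intro U hU hne hne'
  obtain ⟨x, hx⟩ := hne
  obtain ⟨y, hy⟩ := hne'
  obtain ⟨a, ha, b, hb, hm⟩ := hg (g ⁻¹' U) (hU.preimage g.monotone)
    ⟨g.symm x, by simpa using hx⟩ ⟨g.symm y, by simpa using hy⟩
  refine ⟨g a, ha, g b, hb, hm.inv (fun l hl => ⟨⟨?_, ?_⟩, g.apply_symm_apply l⟩)⟩
  · have := g.symm.monotone hl.1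
    rwa [g.symm_apply_apply] at this
  · have := g.symm.monotone hl.2
    rwa [g.symm_apply_apply] at this

theorem model_hd {S : Set (Lam o)} {τ : T X ≃o T X} (j : ℤ) (h : H)
    (hS : ∀ l ∈ S, τ (l.s 0) = act ρ j h (l.s 0)) : Model ρ S (hd o τ) := by
  refine ⟨0, 0, j, h, fun l hl => ⟨hS l hl, fun i => ?_⟩, fun l _ m _ =>
    ⟨fun i hi => absurd hi (Nat.not_lt_zero i), fun i hi => absurd hi (Nat.not_lt_zero i)⟩⟩
  rw [show 0 + 1 + i = i + 1 by omega]
  rfl

/-- The shift of the integer coordinate of a letter. -/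
noncomputable def shT (j : ℤ) : T X ≃o T X :=
  StrictMono.orderIsoOfSurjective (fun a : T X => (⟨a.n + j, a.y⟩ : T X))
    (by
      intro a b h
      rw [T.lt_def] at h ⊢
      rcases h with h | ⟨h, h'⟩
      · left; show a.n + j < b.n + j; omega
      · right; exact ⟨by show a.n + j = b.n + j; omega, h'⟩)
    (fun a => ⟨⟨a.n - j, a.y⟩, by ext <;> simp⟩)

theorem shT_apply (j : ℤ) (a : T X) : shT j a = ⟨a.n + j, a.y⟩ := rfl

theorem shT_mul (i j : ℤ) : (shT i * shT j : T X ≃o T X) = shT (j + i) := by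
  refine DFunLike.ext _ _ (fun a => ?_)
  show shT i (shT j a) = _
  simp [shT_apply, add_assoc]

theorem shT_zero : (shT 0 : T X ≃o T X) = 1 := by
  refine DFunLike.ext _ _ (fun a => ?_)
  show shT 0 a = a
  rw [shT_apply]
  ext <;> simp

theorem loc_sh (j : ℤ) : Loc ρ ⇑(hd o (shT j)) := by
  rintro U - ⟨a, ha⟩ ⟨b, hb⟩
  refine ⟨a, ha, b, hb, model_hd j 1 (fun l _ => ?_)⟩
  rw [shT_apply, act]
  simp

variable (ρ o)

/-- The group of tame automorphisms. -/
def Tame : Subgroup (Lam o ≃o Lam o) where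
  carrier := {g | Loc ρ g ∧ ∃ w j, ∀ l, l ≤ w → g l = hd o (shT j) l}
  mul_mem' := by
    rintro f g ⟨hf, w, j, hw⟩ ⟨hg, w', j', hw'⟩
    refine ⟨hf.mul hg, min w' (g.symm w), j' + j, fun l hl => ?_⟩
    have h1 : g l ≤ w := by
      have := g.monotone (hl.trans (min_le_right _ _))
      rwa [g.apply_symm_apply] at this
    show f (g l) = _
    rw [hw _ h1, hw' l (hl.trans (min_le_left _ _)), ← shT_mul, map_mul]
    rfl
  one_mem' := by
    have h : (1 : Lam o ≃o Lam o) = hd o (shT 0) := by rw [shT_zero, map_one]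
    refine ⟨?_, lo o ⟨0, o⟩, 0, fun l _ => by rw [← h]⟩
    rw [h]
    exact loc_sh 0
  inv_mem' := by
    rintro g ⟨hg, w, j, hw⟩
    refine ⟨hg.inv, g w, -j, fun l hl => ?_⟩
    have h1 : g.symm l ≤ w := by
      have := g.symm.monotone hl
      rwa [g.symm_apply_apply] at this
    have h2 := hw _ h1
    rw [g.apply_symm_apply] at h2
    show g.symm l = _
    conv_rhs => rw [h2]
    show _ = (hd o (shT (-j)) * hd o (shT j)) _
    rw [← map_mul, shT_mul, add_neg_cancel, shT_zero, map_one]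
    rfl

variable {ρ o}

theorem sh_mem (j : ℤ) : hd o (shT j) ∈ Tame o ρ :=
  ⟨loc_sh j, lo o ⟨0, o⟩, j, fun _ _ => rfl⟩

/-- A map which agrees with tame maps on all bounded above sets is tame. -/
theorem tame_of_local {f : Lam o ≃o Lam o}
    (h : ∀ l, ∃ g ∈ Tame o ρ, ∀ m, m ≤ l → f m = g m) : f ∈ Tame o ρ := by
  constructor
  · intro U hU hne hne'
    obtain ⟨y, hy⟩ := hne'
    obtain ⟨g, hg, hfg⟩ := h y
    obtain ⟨a, ha, b, hb, hm⟩ := hg.1 U hU hne ⟨y, hy⟩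
    refine ⟨a, ha, min b y, ?_, (hm.mono (Icc_subset_Icc le_rfl (min_le_left _ _))).congr ?_⟩
    · rcases min_choice b y with h | h <;> rw [h]
      · exact hb
      · exact hy
    · intro l hl
      exact hfg l (hl.2.trans (min_le_right _ _))
  · obtain ⟨g, ⟨-, w, j, hw⟩, hfg⟩ := h (lo o ⟨0, o⟩)
    refine ⟨min w (lo o ⟨0, o⟩), j, fun l hl => ?_⟩
    rw [hfg l (hl.trans (min_le_right _ _)), hw l (hl.trans (min_le_left _ _))]

end Pool.Agent.H256Z.OS
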