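import Pool.Agent.H256Z.OS.Hol

/-! Ultraproducts, limits and the embedding theorem. -/

set_option autoImplicit false
set_option linter.unusedSectionVars false

namespace Pool.Agent.H256Z.OS

open Filter

/-- Bundled ordered groups. -/
structure OG where
  α : Type
  [grp : Group α]
  [lin : LinearOrder α]
  [ml : MulLeftMono α]
  [mr : MulRightMono α]

instance (K : OG) : Group K.α := K.grp
instance (K : OG) : LinearOrder K.α := K.lin
instance (K : OG) : MulLeftMono K.α := K.ml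
instance (K : OG) : MulRightMono K.α := K.mr

theorem ofCone (G : Type) [Group G] (P : G → Prop) (hmul : ∀ u v, P u → P v → P (u * v))
    (hconj : ∀ u v, P u → P (v * u * v⁻¹)) (h1 : ¬ P 1) (htot : ∀ u, u ≠ 1 → P u ∨ P u⁻¹) :
    ∃ (K : OG) (e : G ≃* K.α), ∀ u, P u → 1 < e u := by
  classical
  let lin : LinearOrder G :=
    { le := fun a b => a = b ∨ P (a⁻¹ * b)
      le_refl := fun a => Or.inl rfl
      le_trans := by
        rintro a b c (rfl | hab) (rfl | hbc)
        · exact Or.inl rfl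
        · exact Or.inr hbc
        · exact Or.inr hab
        · right
          have := hmul _ _ hab hbc
          rwa [show a⁻¹ * b * (b⁻¹ * c) = a⁻¹ * c by group] at this
      le_antisymm := by
        rintro a b (rfl | hab) hba
        · rfl
        · rcases hba with hba | hba
          · exact hba.symm
          · have := hmul _ _ hab hba
            rw [show a⁻¹ * b * (b⁻¹ * a) = 1 by group] at this
            exact absurd this h1
      le_total := by
        intro a b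
        by_cases h : a = b
        · exact Or.inl (Or.inl h)
        · rcases htot (a⁻¹ * b) (fun e => h (inv_mul_eq_one.1 e)) with e | e
          · exact Or.inl (Or.inr e)
          · rw [mul_inv_rev, inv_inv] at e
            exact Or.inr (Or.inr e)
      toDecidableLE := Classical.decRel _ }
  have ml : MulLeftMono G := ⟨by
    rintro c a b (rfl | h)
    · exact Or.inl rfl
    · right
      show P ((c * a)⁻¹ * (c * b))
      rwa [show (c * a)⁻¹ * (c * b) = a⁻¹ * b by group]⟩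
  have mr : MulRightMono G := ⟨by
    rintro c a b (rfl | h)
    · exact Or.inl rfl
    · right
      show P ((a * c)⁻¹ * (b * c))
      have := hconj _ c⁻¹ h
      rwa [show c⁻¹ * (a⁻¹ * b) * c⁻¹⁻¹ = (a * c)⁻¹ * (b * c) by group] at this⟩
  refine ⟨⟨G⟩, MulEquiv.refl G, fun u hu => ?_⟩
  refine lt_of_le_of_ne (Or.inr (by simpa using hu)) (fun e => h1 ?_)
  have e' : (1 : G) = u := e
  rwa [e']

theorem ofQuot (A : Type) [Group A] (N : Subgroup A) [N.Normal] (P : A → Prop)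
    (hmul : ∀ u v, P u → P v → P (u * v)) (hconj : ∀ u v, P u → P (v * u * v⁻¹))
    (h1 : ∀ u ∈ N, ¬ P u) (htot : ∀ u, u ∈ N ∨ P u ∨ P u⁻¹) :
    ∃ (K : OG) (π : A →* K.α), Function.Surjective π ∧ (∀ u, P u → 1 < π u) ∧
      ∀ u ∈ N, π u = 1 := by
  obtain ⟨K, e, he⟩ := ofCone (A ⧸ N) (fun q => ∃ u, P u ∧ (u : A ⧸ N) = q)
    (by
      rintro _ _ ⟨u, hu, rfl⟩ ⟨v, hv, rfl⟩
      exact ⟨u * v, hmul _ _ hu hv, rfl⟩)
    (by
      rintro _ q ⟨u, hu, rfl⟩
      obtain ⟨v, rfl⟩ := QuotientGroup.mk_surjective q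
      exact ⟨v * u * v⁻¹, hconj _ _ hu, rfl⟩)
    (by
      rintro ⟨u, hu, e⟩
      exact h1 u ((QuotientGroup.eq_one_iff u).1 e) hu)
    (by
      intro q hq
      obtain ⟨u, rfl⟩ := QuotientGroup.mk_surjective q
      rcases htot u with h | h | h
      · exact absurd ((QuotientGroup.eq_one_iff u).2 h) hq
      · exact Or.inl ⟨u, h, rfl⟩
      · exact Or.inr ⟨u⁻¹, h, rfl⟩)
  refine ⟨K, e.toMonoidHom.comp (QuotientGroup.mk' N),
    e.surjective.comp (QuotientGroup.mk'_surjective N), fun u hu => he _ ⟨u, hu, rfl⟩,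
    fun u hu => ?_⟩
  show e (u : A ⧸ N) = 1
  rw [(QuotientGroup.eq_one_iff u).2 hu, map_one]

theorem redProd {ι : Type} (𝓕 : Filter ι) [𝓕.NeBot] (K : ι → OG) (A : Subgroup (∀ i, (K i).α))
    (hA : ∀ g ∈ A, (∀ᶠ i in 𝓕, g i = 1) ∨ (∀ᶠ i in 𝓕, 1 < g i) ∨ (∀ᶠ i in 𝓕, g i < 1)) :
    ∃ (L : OG) (π : A →* L.α), Function.Surjective π ∧
      (∀ u : A, (∀ᶠ i in 𝓕, 1 < u.1 i) → 1 < π u) ∧
      ∀ u v : A, (∀ᶠ i in 𝓕, u.1 i = v.1 i) → π u = π v := by
  let N : Subgroup A :=
    { carrier := {u | ∀ᶠ i in 𝓕, u.1 i = 1}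
      mul_mem' := by
        intro a b ha hb
        filter_upwards [ha, hb] with i h1 h2
        show a.1 i * b.1 i = 1
        rw [h1, h2, mul_one]
      one_mem' := Eventually.of_forall (fun _ => rfl)
      inv_mem' := by
        intro a ha
        filter_upwards [ha] with i h1
        show (a.1 i)⁻¹ = 1
        rw [h1, inv_one] }
  have hN : N.Normal := ⟨by
    intro a ha g
    filter_upwards [ha] with i h1
    show g.1 i * a.1 i * (g.1 i)⁻¹ = 1
    rw [h1, mul_one, mul_inv_cancel]⟩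
  obtain ⟨L, π, h1, h2, h3⟩ := ofQuot A N (fun u => ∀ᶠ i in 𝓕, 1 < u.1 i)
    (by
      intro u v hu hv
      filter_upwards [hu, hv] with i h1 h2
      exact one_lt_mul_of_lt_of_le' h1 h2.le)
    (by
      intro u v hu
      filter_upwards [hu] with i h1
      exact one_lt_cj _ h1)
    (by
      intro u hu hu'
      obtain ⟨i, h1, h2⟩ := (Eventually.and hu hu').exists
      exact h2.ne' h1)
    (by
      intro u
      rcases hA u.1 u.2 with h | h | h
      · exact Or.inl h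
      · exact Or.inr (Or.inl h)
      · refine Or.inr (Or.inr ?_)
        filter_upwards [h] with i h1
        exact one_lt_inv'.2 h1)
  refine ⟨L, π, h1, h2, fun u v huv => ?_⟩
  have : π (u * v⁻¹) = 1 := h3 _ (by
    filter_upwards [huv] with i h1
    show u.1 i * (v.1 i)⁻¹ = 1
    rw [h1, mul_inv_cancel])
  rwa [map_mul, map_inv, mul_inv_eq_one] at this

section Emb
variable {H K : OG} {φ : H.α →* K.α}

theorem emb_strictMono (hφ : ∀ x, 1 < x → 1 < φ x) : StrictMono φ := by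
  intro a b hab
  have := hφ (a⁻¹ * b) (by simpa using hab)
  simpa using this

theorem near_iff (hφ : ∀ x, 1 < x → 1 < φ x) (b c : H.α) : Near (φ b) (φ c) ↔ Near b c := by
  have h := emb_strictMono hφ
  unfold Near
  rw [← map_one φ, h.lt_iff_lt]
  simp only [← map_inv, ← map_mul, ← map_pow, h.lt_iff_lt]

end Emb

theorem Solved.map {G L : Type} [Group G] [Group L] {b c : G} (h : Solved b c) (φ : G →* L) :
    Solved (φ b) (φ c) := by
  obtain ⟨x, f, e⟩ := h
  refine ⟨φ x, φ f, ?_⟩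
  simpa using congrArg φ e

theorem step_OG (H : OG) {b c : H.α} (h : Near b c) :
    ∃ (K : OG) (φ : H.α →* K.α), (∀ x, 1 < x → 1 < φ x) ∧ Solved (φ b) (φ c) := by
  obtain ⟨G, _, P, φ, h1, h2, h3, h4, h5, h6⟩ := one_step h
  obtain ⟨K, e, he⟩ := ofCone G P h1 h2 h3 h4
  exact ⟨K, e.toMonoidHom.comp φ, fun x hx => he _ (h5 x hx), h6.map e.toMonoidHom⟩

theorem step_fin (H : OG) (F : Finset (H.α × H.α)) :
    ∃ (K : OG) (φ : H.α →* K.α), (∀ x, 1 < x → 1 < φ x) ∧
      ∀ p ∈ F, Near p.1 p.2 → Solved (φ p.1) (φ p.2) := by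
  classical
  induction F using Finset.induction_on with
  | empty => exact ⟨H, MonoidHom.id _, fun _ h => h, fun p hp => absurd hp (by simp)⟩
  | insert p F _ ih =>
    obtain ⟨K, φ, h1, h2⟩ := ih
    by_cases hp : Near p.1 p.2
    · obtain ⟨L, ψ, h3, h4⟩ := step_OG K ((near_iff h1 _ _).2 hp)
      refine ⟨L, ψ.comp φ, fun x hx => h3 _ (h1 x hx), fun q hq hq' => ?_⟩
      rcases Finset.mem_insert.1 hq with rfl | hq
      · exact h4
      · exact (h2 q hq hq').map ψ
    · refine ⟨K, φ, h1, fun q hq hq' => ?_⟩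
      rcases Finset.mem_insert.1 hq with rfl | hq
      · exact absurd hq' hp
      · exact h2 q hq hq'

theorem step_all (H : OG) :
    ∃ (K : OG) (φ : H.α →* K.α), (∀ x, 1 < x → 1 < φ x) ∧
      ∀ b c, Near b c → Solved (φ b) (φ c) := by
  classical
  choose K φ h1 h2 using step_fin H
  let 𝓤 : Ultrafilter (Finset (H.α × H.α)) := Ultrafilter.of atTop
  obtain ⟨L, π, -, h4, h5⟩ := redProd (𝓤 : Filter _) K ⊤ (fun g _ => by
    rcases 𝓤.em (fun i => g i = 1) with h | h
    · exact Or.inl h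
    rcases 𝓤.em (fun i => 1 < g i) with h' | h'
    · exact Or.inr (Or.inl h')
    · refine Or.inr (Or.inr ?_)
      filter_upwards [h, h'] with i e1 e2
      exact lt_of_le_of_ne (not_lt.1 e2) e1)
  let Φ : H.α →* (⊤ : Subgroup (∀ i, (K i).α)) :=
    (MonoidHom.pi φ).codRestrict ⊤ (fun _ => trivial)
  refine ⟨L, π.comp Φ, fun x hx => h4 _ (Eventually.of_forall (fun i => h1 i x hx)),
    fun b c hbc => ?_⟩
  have key : ∀ i, ∃ x f : (K i).α, (b, c) ∈ i →
      f * (x * φ i c * x⁻¹ * φ i c) * f⁻¹ = x * φ i b * x⁻¹ * φ i b := by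
    intro i
    by_cases hi : (b, c) ∈ i
    · obtain ⟨x, f, e⟩ := h2 i _ hi hbc
      exact ⟨x, f, fun _ => e⟩
    · exact ⟨1, 1, fun h => absurd h hi⟩
  choose x f hxf using key
  refine ⟨π ⟨x, trivial⟩, π ⟨f, trivial⟩, ?_⟩
  have hev : ∀ᶠ i in (𝓤 : Filter (Finset (H.α × H.α))), (b, c) ∈ i := by
    apply Ultrafilter.of_le atTop
    filter_upwards [eventually_ge_atTop ({(b, c)} : Finset (H.α × H.α))] with i hi
    exact hi (Finset.mem_singleton_self _)
  have := h5 (⟨f, trivial⟩ * (⟨x, trivial⟩ * Φ c * ⟨x, trivial⟩⁻¹ * Φ c) * ⟨f, trivial⟩⁻¹)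
    (⟨x, trivial⟩ * Φ b * ⟨x, trivial⟩⁻¹ * Φ b) (by
      filter_upwards [hev] with i hi
      exact hxf i hi)
  simpa using this

theorem limit (H : OG) :
    ∃ (L : OG) (φ : H.α →* L.α), (∀ x, 1 < x → 1 < φ x) ∧
      ∀ b c : L.α, Near b c → Solved b c := by
  classical
  choose nx ι h1 h2 using step_all
  let K : ℕ → OG := fun n => Nat.rec (motive := fun _ => OG) H (fun _ G => nx G) n
  let i : ∀ n, (K n).α →* (K (n + 1)).α := fun n => ι (K n)
  have hi : ∀ n x, 1 < x → 1 < i n x := fun n => h1 (K n)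
  let A : Subgroup (∀ n, (K n).α) :=
    { carrier := {g | ∀ᶠ n in atTop, g (n + 1) = i n (g n)}
      mul_mem' := by
        intro a b ha hb
        filter_upwards [ha, hb] with n e1 e2
        show a (n + 1) * b (n + 1) = i n (a n * b n)
        rw [e1, e2, map_mul]
      one_mem' := Eventually.of_forall (fun n => (map_one (i n)).symm)
      inv_mem' := by
        intro a ha
        filter_upwards [ha] with n e1
        show (a (n + 1))⁻¹ = i n (a n)⁻¹
        rw [e1, map_inv] }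
  obtain ⟨L, π, hsur, h4, h5⟩ := redProd atTop K A (fun g hg => by
    obtain ⟨n0, hn0⟩ := eventually_atTop.1 hg
    rcases lt_trichotomy (g n0) 1 with h | h | h
    · refine Or.inr (Or.inr (eventually_atTop.2 ⟨n0, fun n hn => ?_⟩))
      induction n, hn using Nat.le_induction with
      | base => exact h
      | succ n hn ih =>
        rw [hn0 n hn, ← map_one (i n)]
        exact emb_strictMono (hi n) ih
    · refine Or.inl (eventually_atTop.2 ⟨n0, fun n hn => ?_⟩)
      induction n, hn using Nat.le_induction with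
      | base => exact h
      | succ n hn ih => rw [hn0 n hn, ih, map_one]
    · refine Or.inr (Or.inl (eventually_atTop.2 ⟨n0, fun n hn => ?_⟩))
      induction n, hn using Nat.le_induction with
      | base => exact h
      | succ n hn ih =>
        rw [hn0 n hn]
        exact hi n _ ih)
  let t : ∀ n m, n ≤ m → ((K n).α →* (K m).α) := fun n m h =>
    Nat.leRecOn (C := fun m => (K n).α →* (K m).α) h (fun {k} ψ => (i k).comp ψ) (MonoidHom.id _)
  have t0 : ∀ n, t n n le_rfl = MonoidHom.id _ := fun n => Nat.leRecOn_self _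
  have ts : ∀ n m (h : n ≤ m), t n (m + 1) (Nat.le_succ_of_le h) = (i m).comp (t n m h) :=
    fun n m h => Nat.leRecOn_succ h _
  let th : ∀ n, (K n).α →* ∀ m, (K m).α := fun n =>
    MonoidHom.pi (fun m => if h : n ≤ m then t n m h else 1)
  have th1 : ∀ n m (h : n ≤ m) x, th n x m = t n m h x := by
    intro n m h x
    show (if h : n ≤ m then t n m h else 1) x = _
    rw [dif_pos h]
  have thA : ∀ n x, th n x ∈ A := by
    intro n x
    refine eventually_atTop.2 ⟨n, fun m hm => ?_⟩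
    rw [th1 n m hm, th1 n (m + 1) (Nat.le_succ_of_le hm), ts n m hm]
    rfl
  let j : ∀ n, (K n).α →* L.α := fun n => π.comp ((th n).codRestrict A (thA n))
  have j1 : ∀ n x, 1 < x → 1 < j n x := by
    intro n x hx
    refine h4 _ (eventually_atTop.2 ⟨n, fun m hm => ?_⟩)
    show 1 < th n x m
    rw [th1 n m hm]
    induction m, hm using Nat.le_induction with
    | base => rw [t0]; exact hx
    | succ m hm ih => rw [ts n m hm]; exact hi m _ ih
  have j2 : ∀ (u : A) n, (∀ m, n ≤ m → u.1 (m + 1) = i m (u.1 m)) → π u = j n (u.1 n) := by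
    intro u n hu
    refine h5 _ _ (eventually_atTop.2 ⟨n, fun m hm => ?_⟩)
    show u.1 m = th n (u.1 n) m
    rw [th1 n m hm]
    induction m, hm using Nat.le_induction with
    | base => rw [t0]; rfl
    | succ m hm ih => rw [ts n m hm, hu m hm, ih]; rfl
  refine ⟨L, j 0, j1 0, fun b c hbc => ?_⟩
  obtain ⟨u, rfl⟩ := hsur b
  obtain ⟨v, rfl⟩ := hsur c
  obtain ⟨n, hn⟩ := eventually_atTop.1 (Eventually.and u.2 v.2)
  have e1 := j2 u n (fun m hm => (hn m hm).1)
  have e2 := j2 v n (fun m hm => (hn m hm).2)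
  have e3 := j2 u (n + 1) (fun m hm => (hn m (by omega)).1)
  have e4 := j2 v (n + 1) (fun m hm => (hn m (by omega)).2)
  rw [e1, e2, near_iff (j1 n)] at hbc
  rw [e3, e4, (hn n le_rfl).1, (hn n le_rfl).2]
  exact (h2 (K n) _ _ hbc).map (j (n + 1))

/-- Positive cones of invariant partial orders. -/
def IsCone {G : Type} [Group G] (P : Set G) : Prop :=
  (∀ u ∈ P, ∀ v ∈ P, u * v ∈ P) ∧ (∀ u ∈ P, ∀ v, v * u * v⁻¹ ∈ P) ∧ 1 ∉ P

theorem IsCone.ns {G : Type} [Group G] {P : Set G} (hP : IsCone P) {x y : G} (hx : x ∈ P)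
    (h : NS x y) : y ∈ P := by
  induction h with
  | conj g => exact hP.2.1 x hx g
  | mul _ _ h1 h2 => exact hP.1 _ h1 _ h2

theorem cone_ext {G : Type} [Group G] {P : Set G} (hP : Maximal IsCone P) {a : G}
    (ha : ¬ NS a 1) (haP : a ∉ P) : ∃ b, NS a b ∧ b⁻¹ ∈ P := by
  by_contra hcon
  push Not at hcon
  have hc : IsCone {x | x ∈ P ∨ NS a x ∨ ∃ p ∈ P, ∃ s, NS a s ∧ x = p * s} := by
    obtain ⟨m1, m2, m3⟩ := hP.prop
    refine ⟨?_, ?_, ?_⟩
    · rintro u (hu | hu | ⟨p, hp, s, hs, rfl⟩) v (hv | hv | ⟨q, hq, t, ht, rfl⟩)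
      · exact Or.inl (m1 _ hu _ hv)
      · exact Or.inr (Or.inr ⟨u, hu, v, hv, rfl⟩)
      · exact Or.inr (Or.inr ⟨u * q, m1 _ hu _ hq, t, ht, by group⟩)
      · exact Or.inr (Or.inr ⟨u * v * u⁻¹, m2 _ hv _, u, hu, by group⟩)
      · exact Or.inr (Or.inl (hu.mul hv))
      · exact Or.inr (Or.inr ⟨u * q * u⁻¹, m2 _ hq _, u * t, hu.mul ht, by group⟩)
      · exact Or.inr (Or.inr ⟨p * (s * v * s⁻¹), m1 _ hp _ (m2 _ hv _), s, hs, by group⟩)
      · exact Or.inr (Or.inr ⟨p, hp, s * v, hs.mul hv, by group⟩)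
      · exact Or.inr (Or.inr ⟨p * (s * q * s⁻¹), m1 _ hp _ (m2 _ hq _), s * t, hs.mul ht,
          by group⟩)
    · rintro u (hu | hu | ⟨p, hp, s, hs, rfl⟩) v
      · exact Or.inl (m2 _ hu _)
      · exact Or.inr (Or.inl (hu.conj_mem v))
      · exact Or.inr (Or.inr ⟨v * p * v⁻¹, m2 _ hp _, v * s * v⁻¹, hs.conj_mem v, by group⟩)
    · rintro (hu | hu | ⟨p, hp, s, hs, e⟩)
      · exact m3 hu
      · exact ha hu
      · refine hcon s hs ?_
        rwa [show s⁻¹ = p from (eq_inv_of_mul_eq_one_left e.symm).symm]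
  exact haP (hP.le_of_ge hc (fun x hx => Or.inl hx) (Or.inr (Or.inl (NS.self a))))

theorem cone_total (L : OG) (hL : ∀ b c : L.α, Near b c → Solved b c) (P : Set L.α)
    (hP : IsCone P) : ∃ Q : Set L.α, IsCone Q ∧ P ⊆ Q ∧ ∀ a, a ≠ 1 → a ∈ Q ∨ a⁻¹ ∈ Q := by
  obtain ⟨Q, hPQ, hQ⟩ := zorn_subset_nonempty {Q : Set L.α | IsCone Q} (by
    intro c hc hch hne
    refine ⟨⋃₀ c, ⟨?_, ?_, ?_⟩, fun s hs => Set.subset_sUnion_of_mem hs⟩
    · rintro u ⟨s, hs, hu⟩ v ⟨t, ht, hv⟩
      rcases hch.total hs ht with e | e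
      · exact ⟨t, ht, (hc ht).1 _ (e hu) _ hv⟩
      · exact ⟨s, hs, (hc hs).1 _ hu _ (e hv)⟩
    · rintro u ⟨s, hs, hu⟩ v
      exact ⟨s, hs, (hc hs).2.1 _ hu _⟩
    · rintro ⟨s, hs, hu⟩
      exact (hc hs).2.2 hu) P hP
  have hQ' : Maximal IsCone Q := hQ
  refine ⟨Q, hQ'.prop, hPQ, fun a ha => ?_⟩
  by_contra hcon
  push Not at hcon
  obtain ⟨b, hb, hb'⟩ := cone_ext hQ' (fun h => h.ne_one ha rfl) hcon.1
  obtain ⟨c, hc, hc'⟩ := cone_ext hQ' (fun h => h.ne_one (inv_ne_one.2 ha) rfl) hcon.2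
  have hc2 : NS a c⁻¹ := by simpa using hc.inv
  obtain ⟨e, h1, h2⟩ := meet_of_solved hL ha hb hc2
  have e1 := hQ'.prop.ns hc' h2
  have e2 := hQ'.prop.ns hb' h1.inv
  have := hQ'.prop.1 _ e1 _ e2
  rw [mul_inv_cancel] at this
  exact hQ'.prop.2.2 this

end Pool.Agent.H256Z.OS
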